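import Mathlib

open Metric MeasureTheory Set

namespace Pool.Agent.H59.Disc

variable {E : Type*} [NormedAddCommGroup E] [InnerProductSpace ℝ E]

lemma eq_zero_of_both {u w : E} (hu : ‖u‖ = 1) (h1 : ‖u + w‖ ≤ 1) (h2 : ‖u - w‖ ≤ 1) : w = 0 := by
  have h := parallelogram_law_with_norm ℝ u w
  rw [hu] at h
  have h3 : ‖w‖ * ‖w‖ ≤ 0 := by nlinarith [norm_nonneg (u + w), norm_nonneg (u - w)]
  have h4 : ‖w‖ = 0 := by nlinarith [norm_nonneg w]
  exact norm_eq_zero.1 h4

/-- directions of the boundary points of the intersection of the unit balls around the `o j`,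
seen from `o i` -/
def T {ι : Type*} (o : ι → E) (i : ι) : Set E :=
  {u | ‖u‖ = 1 ∧ ∀ j, ‖u + (o i - o j)‖ ≤ 1}

lemma T_closed {ι : Type*} (o : ι → E) (i : ι) : IsClosed (T o i) := by
  unfold T
  rw [setOf_and]
  apply IsClosed.inter
  · exact isClosed_eq continuous_norm continuous_const
  · rw [setOf_forall]
    apply isClosed_iInter
    intro j
    exact isClosed_le (by fun_prop) continuous_const

lemma T_disjoint {ι : Type*} (o : ι → E) {i j : ι} (hij : o i ≠ o j) :
    Disjoint (T o i) (T o j) := by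
  rw [Set.disjoint_left]
  rintro u ⟨hu, h1⟩ ⟨-, h2⟩
  have h3 := h1 j
  have h4 := h2 i
  have h5 : o i - o j = 0 := by
    apply eq_zero_of_both hu h3
    have : u - (o i - o j) = u + (o j - o i) := by abel
    rw [this]; exact h4
  exact hij (sub_eq_zero.1 h5)

lemma T_ne_sphere {ι : Type*} (o : ι → E) {i j : ι} (hij : o i ≠ o j) {u : E}
    (h1 : u ∈ T o i) (h2 : -u ∈ T o i) : False := by
  have h3 := h1.2 j
  have h4 := h2.2 j
  have h5 : o i - o j = 0 := by
    apply eq_zero_of_both h1.1 h3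
    have : u - (o i - o j) = -(-u + (o i - o j)) := by abel
    rw [this, norm_neg]; exact h4
  exact hij (sub_eq_zero.1 h5)

variable [FiniteDimensional ℝ E]

lemma vol_image [MeasurableSpace E] [BorelSpace E] (L : E ≃ₗᵢ[ℝ] E) (C : Set E) :
    (volume : Measure E) (L '' C) = (volume : Measure E) C := by
  have h1 := L.measurePreserving.measure_preimage_equiv (f := L.toMeasurableEquiv) (L '' C)
  rw [← h1]
  congr 1
  ext x
  simp

lemma centres (hd : 1 < Module.finrank ℝ E) {ι : Type*} [Finite ι] [Nontrivial ι] (A : Set E)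
    (φ : ι → E ≃ᵢ E) (hcov : ⋃ i, φ i '' A = closedBall (0 : E) 1) :
    ∃ i j, i ≠ j ∧ (φ i).symm 0 = (φ j).symm 0 := by
  classical
  by_contra hcon
  push Not at hcon
  haveI := Fintype.ofFinite ι
  letI : MeasurableSpace E := borel E
  haveI : BorelSpace E := ⟨rfl⟩
  set o : ι → E := fun i => (φ i).symm 0 with ho
  -- linear parts
  have hlin : ∀ i, ∃ L : E ≃ₗᵢ[ℝ] E, ∀ x, φ i x = L (x - o i) := by
    intro i
    let ψ : E ≃ᵢ E := (IsometryEquiv.addRight (o i)).trans (φ i)
    have h0 : ψ 0 = 0 := by simp [ψ, ho]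
    refine ⟨ψ.toRealLinearIsometryEquivOfMapZero h0, fun x => ?_⟩
    simp [ψ]
  choose L hL using hlin
  have hballs : ∀ a ∈ A, ∀ j, ‖a - o j‖ ≤ 1 := by
    intro a ha j
    have h1 : φ j a ∈ closedBall (0 : E) 1 := by
      rw [← hcov]; exact mem_iUnion.2 ⟨j, mem_image_of_mem _ ha⟩
    rw [hL j, mem_closedBall_zero_iff, LinearIsometryEquiv.norm_map] at h1
    exact h1
  have hcovT : ∀ v : E, ‖v‖ = 1 → ∃ i, (L i).symm v ∈ T o i := by
    intro v hv
    have h1 : v ∈ ⋃ i, φ i '' A := by rw [hcov]; simp [hv]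
    obtain ⟨i, a, ha, rfl⟩ := mem_iUnion.1 h1
    refine ⟨i, ?_⟩
    rw [hL i] at hv ⊢
    rw [LinearIsometryEquiv.norm_map] at hv
    rw [LinearIsometryEquiv.symm_apply_apply]
    refine ⟨hv, fun j => ?_⟩
    have : a - o i + (o i - o j) = a - o j := by abel
    rw [this]
    exact hballs a ha j
  -- the sphere is not the union of the T i
  have hrank : 1 < Module.rank ℝ E := by
    rw [← Module.finrank_eq_rank]; exact_mod_cast hd
  haveI : Nontrivial E := Module.nontrivial_of_finrank_pos (R := ℝ) (by omega)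
  have hgap : ∃ u : E, ‖u‖ = 1 ∧ ∀ i, u ∉ T o i := by
    by_contra hno
    push Not at hno
    have hS : IsPreconnected (sphere (0 : E) 1) := isPreconnected_sphere hrank 0 1
    obtain ⟨v, hv⟩ := exists_norm_eq E (zero_le_one' ℝ)
    obtain ⟨i, hi⟩ := hno v hv
    have hcl : IsClosed (⋃ j : {j : ι // j ≠ i}, T o j) :=
      isClosed_iUnion_of_finite fun j => T_closed o j
    have hall : ∀ u ∈ sphere (0 : E) 1, u ∈ T o i := by
      intro u hu
      by_contra hui
      rw [isPreconnected_closed_iff] at hS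
      have h3 := hS (T o i) (⋃ j : {j : ι // j ≠ i}, T o j) (T_closed o i) hcl ?_ ?_ ?_
      · obtain ⟨w, -, hw1, hw2⟩ := h3
        obtain ⟨⟨j, hj⟩, hw3⟩ := mem_iUnion.1 hw2
        exact Set.disjoint_left.1 (T_disjoint o (hcon i j hj.symm)) hw1 hw3
      · intro w hw
        obtain ⟨j, hj⟩ := hno w (by simpa using hw)
        by_cases hji : j = i
        · left; rw [← hji]; exact hj
        · right; exact mem_iUnion.2 ⟨⟨j, hji⟩, hj⟩
      · exact ⟨v, by simpa using hv, hi⟩
      · obtain ⟨j, hj⟩ := hno u (by simpa using hu)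
        have hji : j ≠ i := by rintro rfl; exact hui hj
        exact ⟨u, hu, mem_iUnion.2 ⟨⟨j, hji⟩, hj⟩⟩
    obtain ⟨j, hj⟩ := exists_ne i
    exact T_ne_sphere o (hcon i j hj.symm) (hall v (by simpa using hv))
      (hall (-v) (by simpa using hv))
  -- cones
  let C : ι → Set E := fun i => {x | x ≠ 0 ∧ ‖x‖ ≤ 1 ∧ ‖x‖⁻¹ • x ∈ T o i}
  have hCmeas : ∀ i, MeasurableSet (C i) := by
    intro i
    have h1 : MeasurableSet {x : E | x ≠ 0} := (measurableSet_singleton 0).compl
    have h2 : MeasurableSet {x : E | ‖x‖ ≤ 1} :=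
      (isClosed_le continuous_norm continuous_const).measurableSet
    have h3 : MeasurableSet {x : E | ‖x‖⁻¹ • x ∈ T o i} := by
      have : Measurable fun x : E => ‖x‖⁻¹ • x := by fun_prop
      exact this (T_closed o i).measurableSet
    exact h1.inter (h2.inter h3)
  have hCdisj : Pairwise fun i j => Disjoint (C i) (C j) := by
    intro i j hij
    rw [Set.disjoint_left]
    rintro x ⟨-, -, h1⟩ ⟨-, -, h2⟩
    exact Set.disjoint_left.1 (T_disjoint o (hcon i j hij)) h1 h2
  -- the images of the cones cover the ball minus the origin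
  have hcovC : closedBall (0 : E) 1 ⊆ {0} ∪ ⋃ i, L i '' C i := by
    intro x hx
    rw [mem_closedBall_zero_iff] at hx
    by_cases h0 : x = 0
    · left; simpa using h0
    right
    have hnx : ‖x‖ ≠ 0 := by simpa using h0
    have hv : ‖(‖x‖⁻¹ • x)‖ = 1 := by
      rw [norm_smul, norm_inv, norm_norm, inv_mul_cancel₀ hnx]
    obtain ⟨i, hi⟩ := hcovT _ hv
    refine mem_iUnion.2 ⟨i, (L i).symm x, ⟨?_, ?_, ?_⟩, by simp⟩
    · simpa using h0
    · simpa using hx
    · rw [LinearIsometryEquiv.norm_map]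
      rwa [map_smul] at hi
  have hle : volume (closedBall (0 : E) 1) ≤ volume (⋃ i, C i) := by
    calc volume (closedBall (0 : E) 1) ≤ volume ({0} ∪ ⋃ i, L i '' C i) := measure_mono hcovC
      _ ≤ volume ({0} : Set E) + volume (⋃ i, L i '' C i) := measure_union_le _ _
      _ = volume (⋃ i, L i '' C i) := by simp
      _ ≤ ∑ i, volume (L i '' C i) := measure_iUnion_fintype_le _ _
      _ = ∑ i, volume (C i) := by simp_rw [vol_image]
      _ = volume (⋃ i, C i) := by
        rw [measure_iUnion hCdisj hCmeas, tsum_fintype]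
  -- the gap
  obtain ⟨u, hu, hgu⟩ := hgap
  let G : Set E := {x | x ≠ 0 ∧ ‖x‖ < 1 ∧ ‖x‖⁻¹ • x ∉ ⋃ i, T o i}
  have hGopen : IsOpen G := by
    have h1 : IsOpen {x : E | x ≠ 0} := isOpen_ne
    have h2 : ContinuousOn (fun x : E => ‖x‖⁻¹ • x) {x : E | x ≠ 0} := by
      apply ContinuousOn.smul _ continuousOn_id
      apply ContinuousOn.inv₀ continuous_norm.continuousOn
      intro x hx
      simpa using hx
    have h3 : IsClosed (⋃ i, T o i) := isClosed_iUnion_of_finite fun j => T_closed o j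
    have h4 := h2.isOpen_inter_preimage h1 h3.isOpen_compl
    have h5 : IsOpen {x : E | ‖x‖ < 1} := isOpen_lt continuous_norm continuous_const
    have : G = {x : E | ‖x‖ < 1} ∩ ({x : E | x ≠ 0} ∩ (fun x : E => ‖x‖⁻¹ • x) ⁻¹' (⋃ i, T o i)ᶜ) := by
      ext x
      simp only [G, mem_setOf_eq, mem_inter_iff, mem_preimage, mem_compl_iff]
      tauto
    rw [this]
    exact h5.inter h4
  have hGne : G.Nonempty := by
    refine ⟨(2⁻¹ : ℝ) • u, ?_, ?_, ?_⟩
    · intro h
      rw [smul_eq_zero] at h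
      rcases h with h | h
      · norm_num at h
      · rw [h] at hu; simp at hu
    · rw [norm_smul, hu]; norm_num
    · rw [norm_smul, hu]
      have : (‖(2⁻¹ : ℝ)‖ * 1)⁻¹ • (2⁻¹ : ℝ) • u = u := by
        rw [smul_smul]; norm_num
      rw [this]
      simpa using hgu
  have hGpos : 0 < volume G := hGopen.measure_pos volume hGne
  have hdisj2 : Disjoint (⋃ i, C i) G := by
    rw [Set.disjoint_left]
    rintro x hx ⟨-, -, hx2⟩
    obtain ⟨i, hi⟩ := mem_iUnion.1 hx
    exact hx2 (mem_iUnion.2 ⟨i, hi.2.2⟩)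
  have hsub : (⋃ i, C i) ∪ G ⊆ closedBall (0 : E) 1 := by
    rintro x (hx | hx)
    · obtain ⟨i, hi⟩ := mem_iUnion.1 hx
      rw [mem_closedBall_zero_iff]; exact hi.2.1
    · rw [mem_closedBall_zero_iff]; exact hx.2.1.le
  have h1 : volume (⋃ i, C i) + volume G ≤ volume (closedBall (0 : E) 1) := by
    rw [← measure_union hdisj2 hGopen.measurableSet]
    exact measure_mono hsub
  have hfin : volume (closedBall (0 : E) 1) ≠ ⊤ := measure_closedBall_lt_top.ne
  have h2 : volume (⋃ i, C i) ≠ ⊤ :=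
    ne_top_of_le_ne_top hfin (le_trans le_self_add h1)
  have h3 : volume (⋃ i, C i) + volume G ≤ volume (⋃ i, C i) + 0 := by
    rw [add_zero]; exact h1.trans hle
  have h4 := (ENNReal.add_le_add_iff_left h2).1 h3
  exact absurd h4 (not_le.2 hGpos)

end Pool.Agent.H59.Disc
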