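import Pool.Agent.H59.Disc.Rev3
import Pool.Agent.H59.Disc.Centres

/-!
# Reduction of the problem to configurations in `ℂ`
-/

open Complex ComplexConjugate Metric

namespace Pool.Agent.H59.Disc

/-- the direct isometry `z ↦ p - b̄ z` -/
noncomputable def hd (p : ℝ) (b z : ℂ) : ℂ := p - conj b * z

/-- the inverse of `hd` -/
noncomputable def hdi (p : ℝ) (b w : ℂ) : ℂ := b * (p - w)

/-- hypotheses of the direct case -/
structure Dir (p : ℝ) (b q : ℂ) (A B C : Set ℂ) : Prop where
  cfg : Cfg q (hd p b) (hdi p b) A B C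
  hp : 0 < p
  hb : ‖b‖ = 1

/-- reduction inside `ℂ` -/
theorem red_complex (A B C : Set ℂ) (cov : A ∪ B ∪ C = closedBall (0 : ℂ) 1)
    (hAB : Disjoint A B) (hAC : Disjoint A C) (hBC : Disjoint B C)
    (R h : ℂ ≃ᵢ ℂ) (R0 : R 0 = 0) (hR : R '' B = C) (hh : h '' B = A) :
    ∃ (p : ℝ) (b q : ℂ) (A' B' C' : Set ℂ), Dir p b q A' B' C' ∨ Rev p b q A' B' C' := by
  have dA : ∀ z ∈ A, ‖z‖ ≤ 1 := fun z hz => by
    have : z ∈ closedBall (0 : ℂ) 1 := by rw [← cov]; exact Or.inl (Or.inl hz)
    simpa using this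
  have dB : ∀ z ∈ B, ‖z‖ ≤ 1 := fun z hz => by
    have : z ∈ closedBall (0 : ℂ) 1 := by rw [← cov]; exact Or.inl (Or.inr hz)
    simpa using this
  have dC : ∀ z ∈ C, ‖z‖ ≤ 1 := fun z hz => by
    have : z ∈ closedBall (0 : ℂ) 1 := by rw [← cov]; exact Or.inr hz
    simpa using this
  have hcov : ∀ z, ‖z‖ ≤ 1 → z ∈ A ∨ z ∈ B ∨ z ∈ C := fun z hz => by
    have : z ∈ A ∪ B ∪ C := by rw [cov]; simpa using hz
    rcases this with (h | h) | h
    · exact Or.inl h
    · exact Or.inr (Or.inl h)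
    · exact Or.inr (Or.inr h)
  rw [Set.disjoint_left] at hAB hAC hBC
  have hRB : ∀ z, R z ∈ C ↔ z ∈ B := fun z => by
    rw [← hR]; exact R.injective.mem_set_image
  have hhB : ∀ z, h z ∈ A ↔ z ∈ B := fun z => by
    rw [← hh]; exact h.injective.mem_set_image
  have zA : (0 : ℂ) ∈ A := by
    rcases hcov 0 (by simp) with h | h | h
    · exact h
    · have := (hRB 0).2 h
      rw [R0] at this
      exact absurd this (hBC h)
    · have := (hRB 0).1 (by rw [R0]; exact h)
      exact absurd h (hBC this)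
  have h00 : h 0 ≠ 0 := by
    intro h0
    have := (hhB 0).1 (by rw [h0]; exact zA)
    exact hAB zA this
  have nA : ∀ z ∈ A, ‖z - h 0‖ ≤ 1 := by
    intro z hz
    have h1 : h.symm z ∈ B := (hhB _).1 (by rw [IsometryEquiv.apply_symm_apply]; exact hz)
    have h2 := dB _ h1
    have h3 : dist (h (h.symm z)) (h 0) = dist (h.symm z) 0 := h.isometry.dist_eq _ _
    rw [IsometryEquiv.apply_symm_apply, dist_zero_right, dist_eq_norm] at h3
    rw [h3]; exact h2
  -- the linear parts
  let RL := R.toRealLinearIsometryEquivOfMapZero R0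
  have hRL : ∀ z, RL z = R z := fun z => rfl
  obtain ⟨a, ha⟩ := linear_isometry_complex RL
  have hRrot : ∀ z, R z = a * z := by
    rcases ha with ha | ha
    · intro z
      rw [← hRL, ha]; simp
    · exfalso
      have hRc : ∀ z, R z = a * conj z := by
        intro z
        rw [← hRL, ha]; simp
      obtain ⟨s, hs⟩ : ∃ s : ℂ, s ^ 2 = (a : ℂ) := IsAlgClosed.exists_pow_nat_eq _ two_pos
      have hs1 : ‖s‖ = 1 := by
        have h1 : ‖s‖ ^ 2 = 1 := by rw [← norm_pow, hs]; simp
        have := norm_nonneg s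
        nlinarith
      have hss := conj_mul_self_of_norm hs1
      have hfix : ∀ t : ℂ, t ^ 2 = (a : ℂ) → ‖t‖ = 1 → t ∈ A := by
        intro t ht ht1
        have htt := conj_mul_self_of_norm ht1
        have hf : R t = t := by
          rw [hRc, ← ht]; linear_combination t * htt
        rcases hcov t ht1.le with h | h | h
        · exact h
        · have := (hRB t).2 h
          rw [hf] at this
          exact absurd this (hBC h)
        · have := (hRB t).1 (by rw [hf]; exact h)
          exact absurd h (hBC this)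
      have k1 := nA _ (hfix s hs hs1)
      have k2 := nA _ (hfix (-s) (by rw [neg_sq]; exact hs) (by rw [norm_neg]; exact hs1))
      have k3 : h 0 = 0 := by
        have k4 : ‖s + h 0‖ ≤ 1 := by
          have e : s + h 0 = -(-s - h 0) := by ring
          rw [e, norm_neg]; exact k2
        exact eq_zero_of_both hs1 k4 k1
      exact h00 k3
  let h' : ℂ ≃ᵢ ℂ := h.trans (IsometryEquiv.addRight (-h 0))
  have h'0 : h' 0 = 0 := by simp [h']
  let HL := h'.toRealLinearIsometryEquivOfMapZero h'0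
  have hHL : ∀ z, h z = h 0 + HL z := by
    intro z
    have : HL z = h z + -h 0 := rfl
    rw [this]; ring
  obtain ⟨c, hc⟩ := linear_isometry_complex HL
  -- rotate
  set p : ℝ := ‖h 0‖ with hpdef
  have hp : 0 < p := norm_pos_iff.2 h00
  have hpC : (p : ℂ) ≠ 0 := by exact_mod_cast hp.ne'
  set ω : ℂ := h 0 / p with hω
  have hω1 : ‖ω‖ = 1 := by
    rw [hω, norm_div, Complex.norm_real, Real.norm_eq_abs, abs_of_pos hp, ← hpdef,
      div_self hp.ne']
  have hω0 : ω ≠ 0 := by intro h; rw [h] at hω1; simp at hω1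
  have hωω := conj_mul_self_of_norm hω1
  have hcc : conj (c : ℂ) * c = 1 := conj_mul_self_of_norm (by simp)
  have h0ω : h 0 = ω * p := by rw [hω]; field_simp
  have ha1 : ‖(a : ℂ)‖ = 1 := by simp
  have general : ∀ (k ki : ℂ → ℂ), (∀ z, h (ω * z) = ω * k z) → (∀ z, h (ω * ki z) = ω * z) →
      Cfg (a : ℂ) k ki ((ω * ·) ⁻¹' A) ((ω * ·) ⁻¹' B) ((ω * ·) ⁻¹' C) := by
    intro k ki hk hki
    refine ⟨?_, ?_, ?_, ?_, ?_, ?_, ?_, ?_, ?_, ?_, ?_, ?_⟩
    · intro z hz; exact hcov _ (by rw [norm_mul, hω1, one_mul]; exact hz)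
    · intro z hz; have := dA _ hz; rwa [norm_mul, hω1, one_mul] at this
    · intro z hz; have := dB _ hz; rwa [norm_mul, hω1, one_mul] at this
    · intro z hz; have := dC _ hz; rwa [norm_mul, hω1, one_mul] at this
    · intro z hz; exact hAB hz
    · intro z hz; exact hAC hz
    · intro z hz; exact hBC hz
    · exact ha1
    · intro z hz
      show ω * (a * z) ∈ C
      have := (hRB _).2 hz
      rw [hRrot] at this
      convert this using 1; ring
    · intro z hz
      show ω * z ∈ B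
      apply (hRB _).1
      rw [hRrot]
      have h1 : ω * (a * z) ∈ C := hz
      convert h1 using 1; ring
    · intro z hz
      show ω * k z ∈ A
      rw [← hk]
      exact (hhB _).2 hz
    · intro z hz
      show ω * ki z ∈ B
      apply (hhB _).1
      rw [hki]
      exact hz
  rcases hc with hc | hc
  · refine ⟨p, -conj (c : ℂ), a, _, _, _, Or.inl ⟨general (hd p (-conj (c : ℂ)))
      (hdi p (-conj (c : ℂ))) ?_ ?_, hp, by simp⟩⟩
    · intro z
      rw [hHL, hc, h0ω]
      simp [hd]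
      ring
    · intro z
      rw [hHL, hc, h0ω]
      simp [hdi]
      linear_combination ω * (z - p) * hcc
  · refine ⟨p, -(conj ω * c * conj ω), a, _, _, _, Or.inr ⟨general
      (hr p (-(conj ω * c * conj ω))) (hri p (-(conj ω * c * conj ω))) ?_ ?_, hp, by
        simp [hω1]⟩⟩
    · intro z
      rw [hHL, hc, h0ω]
      simp [hr]
      linear_combination (-(c * conj ω * conj z)) * hωω
    · intro z
      rw [hHL, hc, h0ω]
      simp [hri]
      have e : conj ω ^ 2 * ω ^ 2 = 1 := by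
        linear_combination (conj ω * ω + 1) * hωω
      linear_combination (ω * (z - p)) * (conj (c : ℂ) * c * hωω + hcc)

/-- **Reduction.** A partition of the closed disc of the Euclidean plane into three pairwise
congruent sets gives a direct or reversing configuration. -/
theorem reduction (A B C : Set (EuclideanSpace ℝ (Fin 2)))
    (cov : A ∪ B ∪ C = closedBall (0 : EuclideanSpace ℝ (Fin 2)) 1)
    (hAB : Disjoint A B) (hAC : Disjoint A C) (hBC : Disjoint B C)
    (f g : EuclideanSpace ℝ (Fin 2) ≃ᵢ EuclideanSpace ℝ (Fin 2))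
    (hf : f '' A = B) (hg : g '' A = C) :
    ∃ (p : ℝ) (b q : ℂ) (A' B' C' : Set ℂ), Dir p b q A' B' C' ∨ Rev p b q A' B' C' := by
  classical
  let E2 := EuclideanSpace ℝ (Fin 2)
  let φ : Fin 3 → E2 ≃ᵢ E2 := ![IsometryEquiv.refl E2, f, g]
  have h0 : φ 0 '' A = A :=
    Set.ext fun z => ⟨by rintro ⟨a, ha, rfl⟩; exact ha, fun h => ⟨z, h, rfl⟩⟩
  have h1 : φ 1 '' A = B := by simpa [φ] using hf
  have h2 : φ 2 '' A = C := by simpa [φ] using hg
  have hcov : ⋃ i, φ i '' A = closedBall (0 : E2) 1 := by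
    rw [← cov]
    ext z
    simp only [Set.mem_iUnion, Set.mem_union]
    constructor
    · rintro ⟨i, hi⟩
      fin_cases i
      · left; left; exact h0 ▸ hi
      · left; right; exact h1 ▸ hi
      · right; exact h2 ▸ hi
    · rintro ((h | h) | h)
      · exact ⟨0, h0.symm ▸ h⟩
      · exact ⟨1, h1.symm ▸ h⟩
      · exact ⟨2, h2.symm ▸ h⟩
  have hdisj : Pairwise fun i j => Disjoint (φ i '' A) (φ j '' A) := by
    intro i j hij
    fin_cases i <;> fin_cases j <;> first
      | exact absurd rfl hij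
      | skip
    · show Disjoint (φ 0 '' A) (φ 1 '' A); rw [h0, h1]; exact hAB
    · show Disjoint (φ 0 '' A) (φ 2 '' A); rw [h0, h2]; exact hAC
    · show Disjoint (φ 1 '' A) (φ 0 '' A); rw [h0, h1]; exact hAB.symm
    · show Disjoint (φ 1 '' A) (φ 2 '' A); rw [h1, h2]; exact hBC
    · show Disjoint (φ 2 '' A) (φ 0 '' A); rw [h0, h2]; exact hAC.symm
    · show Disjoint (φ 2 '' A) (φ 1 '' A); rw [h1, h2]; exact hBC.symm
  have hfin : 1 < Module.finrank ℝ E2 := by simp [E2]
  obtain ⟨i, j, hij, ho⟩ := centres hfin A φ hcov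
  obtain ⟨k, hki, hkj, hk⟩ : ∃ k : Fin 3, k ≠ i ∧ k ≠ j ∧ ∀ l, l = k ∨ l = i ∨ l = j := by
    have : ∀ i j : Fin 3, i ≠ j → ∃ k : Fin 3, k ≠ i ∧ k ≠ j ∧ ∀ l, l = k ∨ l = i ∨ l = j := by
      decide
    exact this i j hij
  let e : ℂ ≃ₗᵢ[ℝ] E2 := Complex.orthonormalBasisOneI.repr
  let ei : ℂ ≃ᵢ E2 := e.toIsometryEquiv
  let P : Fin 3 → Set ℂ := fun l => ei ⁻¹' (φ l '' A)
  let M : Fin 3 → (ℂ ≃ᵢ ℂ) := fun l => ((ei.trans (φ i).symm).trans (φ l)).trans ei.symm
  have hM : ∀ l, M l '' P i = P l := by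
    intro l
    ext z
    constructor
    · rintro ⟨w, hw, rfl⟩
      obtain ⟨a, ha, hwa⟩ := hw
      refine ⟨a, ha, ?_⟩
      simp [M, ← hwa]
    · rintro ⟨a, ha, hza⟩
      refine ⟨ei.symm (φ i a), ⟨a, ha, by simp⟩, ?_⟩
      simp [M, hza]
  have hei0 : ei 0 = 0 := map_zero e
  have hM0 : M j 0 = 0 := by
    have : M j 0 = ei.symm (φ j ((φ i).symm (ei 0))) := rfl
    rw [this, hei0, ho, IsometryEquiv.apply_symm_apply, ← hei0, IsometryEquiv.symm_apply_apply]
  refine red_complex (P k) (P i) (P j) ?_ ?_ ?_ ?_ (M j) (M k) hM0 (hM j) (hM k)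
  · ext z
    have : z ∈ closedBall (0 : ℂ) 1 ↔ ei z ∈ closedBall (0 : E2) 1 := by
      rw [mem_closedBall_zero_iff, mem_closedBall_zero_iff]
      have : ‖ei z‖ = ‖z‖ := e.norm_map z
      rw [this]
    rw [this, ← hcov]
    simp only [Set.mem_union, Set.mem_iUnion]
    constructor
    · rintro ((h | h) | h)
      · exact ⟨k, h⟩
      · exact ⟨i, h⟩
      · exact ⟨j, h⟩
    · rintro ⟨l, hl⟩
      rcases hk l with rfl | rfl | rfl
      · left; left; exact hl
      · left; right; exact hl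
      · right; exact hl
  · exact (hdisj hki).preimage _
  · exact (hdisj hkj).preimage _
  · exact (hdisj hij).preimage _

end Pool.Agent.H59.Disc
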