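import Mathlib

/-!
# Partitions of the closed unit disc of `ℂ` into `A`, `B` and `C = q B` with `A = h(B)`

Basic notions used in the proof that the closed disc is not 3-divisible.
-/

open Complex ComplexConjugate

namespace Pool.Agent.H59.Disc

/-- `E x = exp (i x)` -/
noncomputable def E (x : ℝ) : ℂ := Complex.exp (x * I)

lemma E_ne (x : ℝ) : E x ≠ 0 := Complex.exp_ne_zero _

lemma E_norm (x : ℝ) : ‖E x‖ = 1 := Complex.norm_exp_ofReal_mul_I x

lemma E_add (x y : ℝ) : E (x + y) = E x * E y := by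
  simp [E, ← Complex.exp_add, add_mul]

lemma E_neg (x : ℝ) : E (-x) = (E x)⁻¹ := by
  simp [E, ← Complex.exp_neg]

lemma E_sub (x y : ℝ) : E (x - y) = E x / E y := by
  rw [sub_eq_add_neg, E_add, E_neg, div_eq_mul_inv]

lemma E_zero : E 0 = 1 := by simp [E]

lemma E_pi : E Real.pi = -1 := by simp [E]

lemma E_two_pi : E (2 * Real.pi) = 1 := by
  rw [two_mul, E_add, E_pi]; ring

lemma E_conj (x : ℝ) : conj (E x) = (E x)⁻¹ := by
  rw [← E_neg, E, ← Complex.exp_conj]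
  simp [E]

lemma E_re (x : ℝ) : (E x).re = Real.cos x := by
  simp [E, Complex.exp_ofReal_mul_I_re]

lemma E_im (x : ℝ) : (E x).im = Real.sin x := by
  simp [E, Complex.exp_ofReal_mul_I_im]

lemma re_EE (x y : ℝ) : (conj (E x) * E y).re = Real.cos (y - x) := by
  rw [E_conj, ← E_neg, ← E_add, E_re]; congr 1; ring

lemma E_ne_E {x y : ℝ} (h1 : x < y) (h2 : y < x + 2 * Real.pi) : E x ≠ E y := by
  intro h
  have h3 : E (y - x) = 1 := by
    rw [E_sub, ← h, div_self (E_ne x)]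
  have h4 : Real.cos (y - x) = 1 := by rw [← E_re, h3]; simp
  have h5 := (Real.cos_eq_one_iff_of_lt_of_lt (by linarith) (by linarith)).1 h4
  linarith

/-- a point moved away from the unit circle in a direction which does not point inside -/
lemma out (u w : ℂ) (p : ℝ) (hu : ‖u‖ = 1) (hp : 0 < p) (hw : 0 ≤ (conj u * w).re)
    (hne : w ≠ 0) : 1 < ‖u + p * w‖ := by
  have h1 : ‖u + p * w‖ ^ 2 = 1 + 2 * p * (conj u * w).re + p ^ 2 * ‖w‖ ^ 2 := by
    have e1 : ‖u‖ ^ 2 = u.re ^ 2 + u.im ^ 2 := by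
      rw [← Complex.normSq_eq_norm_sq, Complex.normSq_apply]; ring
    have e2 : ‖w‖ ^ 2 = w.re ^ 2 + w.im ^ 2 := by
      rw [← Complex.normSq_eq_norm_sq, Complex.normSq_apply]; ring
    have e3 : ‖u + p * w‖ ^ 2 = (u.re + p * w.re) ^ 2 + (u.im + p * w.im) ^ 2 := by
      rw [← Complex.normSq_eq_norm_sq, Complex.normSq_apply]; simp; ring
    have e4 : (conj u * w).re = u.re * w.re + u.im * w.im := by simp
    rw [e3, e4, e2]
    rw [hu] at e1
    linear_combination -e1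
  have h2 : 0 < ‖w‖ := norm_pos_iff.2 hne
  have h3 : 1 < ‖u + p * w‖ ^ 2 := by
    rw [h1]
    have : 0 < p ^ 2 * ‖w‖ ^ 2 := by positivity
    have : 0 ≤ 2 * p * (conj u * w).re := by positivity
    linarith
  nlinarith [norm_nonneg (u + p * w)]

/-- `out` with `w` a difference of two unit vectors -/
lemma out2 (s x a b p : ℝ) (hs : s = 1 ∨ s = -1) (hp : 0 < p) (hne : E a ≠ E b)
    (h : s * Real.cos (b - x) ≤ s * Real.cos (a - x)) :
    1 < ‖(s : ℂ) * E x + p * (E a - E b)‖ := by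
  apply out _ _ p _ hp _ (sub_ne_zero.2 hne)
  · rw [norm_mul, E_norm]; rcases hs with rfl | rfl <;> simp
  · have : (conj ((s : ℂ) * E x) * (E a - E b)).re = s * (Real.cos (a - x) - Real.cos (b - x)) := by
      rw [map_mul, Complex.conj_ofReal, mul_assoc, mul_sub, Complex.re_ofReal_mul, Complex.sub_re,
        re_EE, re_EE]
    rw [this]; linarith

/-- A partition of the closed unit disc into `A`, `B`, `C` with `C = q B` and `h : B → A` a
bijection with inverse `hi`. -/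
structure Cfg (q : ℂ) (h hi : ℂ → ℂ) (A B C : Set ℂ) : Prop where
  cov : ∀ z, ‖z‖ ≤ 1 → z ∈ A ∨ z ∈ B ∨ z ∈ C
  dA : ∀ z ∈ A, ‖z‖ ≤ 1
  dB : ∀ z ∈ B, ‖z‖ ≤ 1
  dC : ∀ z ∈ C, ‖z‖ ≤ 1
  AB : ∀ z ∈ A, z ∉ B
  AC : ∀ z ∈ A, z ∉ C
  BC : ∀ z ∈ B, z ∉ C
  q1 : ‖q‖ = 1
  rho : ∀ z, z ∈ B → q * z ∈ C
  rhi : ∀ z, q * z ∈ C → z ∈ B
  hBA : ∀ z ∈ B, h z ∈ A
  hAB : ∀ z ∈ A, hi z ∈ B

namespace Cfg

variable {q : ℂ} {h hi : ℂ → ℂ} {A B C : Set ℂ}

lemma q0 (H : Cfg q h hi A B C) : q ≠ 0 := by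
  intro h; have := H.q1; rw [h] at this; simp at this

lemma isA (H : Cfg q h hi A B C) {z : ℂ} (hz : ‖z‖ ≤ 1) (h1 : z ∉ B) (h2 : z ∉ C) : z ∈ A := by
  rcases H.cov z hz with h | h | h
  · exact h
  · exact absurd h h1
  · exact absurd h h2

lemma isB (H : Cfg q h hi A B C) {z : ℂ} (hz : ‖z‖ ≤ 1) (h1 : z ∉ A) (h2 : z ∉ C) : z ∈ B := by
  rcases H.cov z hz with h | h | h
  · exact absurd h h1
  · exact h
  · exact absurd h h2

lemma isC (H : Cfg q h hi A B C) {z : ℂ} (hz : ‖z‖ ≤ 1) (h1 : z ∉ A) (h2 : z ∉ B) : z ∈ C := by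
  rcases H.cov z hz with h | h | h
  · exact absurd h h1
  · exact absurd h h2
  · exact h

/-- if `q z` is not of type `C` then `z` is not of type `B` -/
lemma nB (H : Cfg q h hi A B C) {z : ℂ} (h1 : q * z ∉ C) : z ∉ B := fun h => h1 (H.rho z h)

/-- if `z` is not of type `B` then `q z` is not of type `C` -/
lemma nC (H : Cfg q h hi A B C) {z : ℂ} (h1 : z ∉ B) : q * z ∉ C := fun h => h1 (H.rhi z h)

/-- `0` is of type `A` -/
lemma zero_A (H : Cfg q h hi A B C) : (0 : ℂ) ∈ A := by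
  rcases H.cov 0 (by simp) with h | h | h
  · exact h
  · have := H.rho 0 h
    rw [mul_zero] at this
    exact absurd this (H.BC 0 h)
  · have := H.rhi 0 (by rw [mul_zero]; exact h)
    exact absurd h (H.BC 0 this)

end Cfg

end Pool.Agent.H59.Disc
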