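import Pool.Agent.H59.Disc.Red
import Pool.Agent.H32.Disc.Direct

/-!
# Conclusion: the closed disc is not 3-divisible
-/

open Complex ComplexConjugate Metric

namespace Pool.Agent.H59.Disc

/-- **The orientation preserving case is impossible** (from the theorem `direct` of
`Pool.Agent.H32.Disc.Direct`). -/
theorem Dir.false {p : ℝ} {b q : ℂ} {A B C : Set ℂ} (H : Dir p b q A B C) : False := by
  have hb := H.hb
  have hbb := conj_mul_self_of_norm hb
  have hC := H.cfg
  -- the set `B` rotated by `b⁻¹`
  set S : Set ℂ := (b * ·) ⁻¹' B with hS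
  have hbinv : ∀ z : ℂ, b * (conj b * z) = z := fun z => by
    linear_combination z * hbb
  have hrho : (fun z => q * z) '' S = (b * ·) ⁻¹' C := by
    ext w
    constructor
    · rintro ⟨z, hz, rfl⟩
      show b * (q * z) ∈ C
      have := hC.rho _ hz
      convert this using 1; ring
    · intro hw
      have hw' : b * w ∈ C := hw
      have hq := hC.q0
      refine ⟨w / q, ?_, by field_simp⟩
      show b * (w / q) ∈ B
      apply hC.rhi
      convert hw' using 1; field_simp
  have hpsi : (fun z => (-conj b) * (z - (p : ℝ))) '' S = (b * ·) ⁻¹' A := by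
    ext w
    constructor
    · rintro ⟨z, hz, rfl⟩
      show b * (-conj b * (z - p)) ∈ A
      have := hC.hBA _ hz
      convert this using 1
      simp only [hd]
      linear_combination (p : ℂ) * hbb
    · intro hw
      have hw' : b * w ∈ A := hw
      refine ⟨conj b * hdi p b (b * w), ?_, ?_⟩
      · show b * (conj b * hdi p b (b * w)) ∈ B
        rw [hbinv]; exact hC.hAB _ hw'
      · show -conj b * (conj b * hdi p b (b * w) - p) = w
        simp only [hdi]
        linear_combination (w * (conj b * b) + w - conj b * p) * hbb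
  refine Pool.Agent.H32.Disc.direct S q (-conj b) p hC.q1 (by simp [hb]) H.hp ?_ ?_ ?_ ?_
  · rw [hrho, Set.disjoint_left]; intro z h1 h2; exact hC.BC _ h1 h2
  · rw [hpsi, Set.disjoint_left]; intro z h1 h2; exact hC.AB _ h2 h1
  · rw [hrho, hpsi, Set.disjoint_left]; intro z h1 h2; exact hC.AC _ h2 h1
  · rw [hrho, hpsi]
    ext z
    have hn : ‖b * z‖ = ‖z‖ := by rw [norm_mul, hb, one_mul]
    rw [mem_closedBall_zero_iff]
    constructor
    · rintro ((h | h) | h)
      · have := hC.dB _ h; rwa [hn] at this
      · have := hC.dC _ h; rwa [hn] at this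
      · have := hC.dA _ h; rwa [hn] at this
    · intro h
      rcases hC.cov (b * z) (by rwa [hn]) with h' | h' | h'
      · right; exact h'
      · left; left; exact h'
      · left; right; exact h'

/-- **The closed disc is not 3-divisible.** -/
theorem not_divisible (A B C : Set (EuclideanSpace ℝ (Fin 2)))
    (cov : A ∪ B ∪ C = closedBall (0 : EuclideanSpace ℝ (Fin 2)) 1)
    (hAB : Disjoint A B) (hAC : Disjoint A C) (hBC : Disjoint B C)
    (f g : EuclideanSpace ℝ (Fin 2) ≃ᵢ EuclideanSpace ℝ (Fin 2))
    (hf : f '' A = B) (hg : g '' A = C) : False := by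
  obtain ⟨p, b, q, A', B', C', h | h⟩ := reduction A B C cov hAB hAC hBC f g hf hg
  · exact h.false
  · exact h.false

end Pool.Agent.H59.Disc
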