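import Pool.Agent.H59.Disc.Cfg

/-!
# The orientation reversing case
-/

set_option linter.unusedSimpArgs false

open Complex ComplexConjugate

namespace Pool.Agent.H59.Disc

/-- the reversing isometry `z ↦ p - b z̄` -/
noncomputable def hr (p : ℝ) (b z : ℂ) : ℂ := p - b * conj z

/-- the inverse of `hr` -/
noncomputable def hri (p : ℝ) (b w : ℂ) : ℂ := b * (p - conj w)

/-- hypotheses of the reversing case -/
structure Rev (p : ℝ) (b q : ℂ) (A B C : Set ℂ) : Prop where
  cfg : Cfg q (hr p b) (hri p b) A B C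
  hp : 0 < p
  hb : ‖b‖ = 1

lemma conj_mul_self_of_norm {b : ℂ} (hb : ‖b‖ = 1) : conj b * b = 1 := by
  rw [← Complex.normSq_eq_conj_mul_self, Complex.normSq_eq_norm_sq, hb]; simp

namespace Rev

variable {p : ℝ} {b q : ℂ} {A B C : Set ℂ}

lemma nA (H : Rev p b q A B C) {z : ℂ} (hz : 1 < ‖z - p‖) : z ∉ A := by
  intro h
  have h1 := H.cfg.dB _ (H.cfg.hAB z h)
  have h2 : ‖hri p b z‖ = ‖z - p‖ := by
    rw [hri, norm_mul, H.hb, one_mul, ← Complex.norm_conj, map_sub, Complex.conj_conj,
      Complex.conj_ofReal, norm_sub_rev]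
  linarith

lemma nB (H : Rev p b q A B C) {z : ℂ} (hz : 1 < ‖z - p * b‖) : z ∉ B := by
  intro h
  have h1 := H.cfg.dA _ (H.cfg.hBA z h)
  have hbb := conj_mul_self_of_norm H.hb
  have h2 : hr p b z = -(b * conj (z - p * b)) := by
    simp only [hr, map_sub, map_mul, Complex.conj_ofReal]
    linear_combination (-(p : ℂ)) * hbb
  have h3 : ‖hr p b z‖ = ‖z - p * b‖ := by
    rw [h2, norm_neg, norm_mul, H.hb, one_mul, Complex.norm_conj]
  linarith

lemma nC (H : Rev p b q A B C) {z : ℂ} (hz : 1 < ‖z - p * (b * q)‖) : z ∉ C := by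
  intro h
  have hq := H.cfg.q0
  have h1 : q * (z / q) ∈ C := by rwa [mul_div_cancel₀ _ hq]
  have h2 := H.cfg.rhi _ h1
  refine H.nB ?_ h2
  have h3 : z - p * (b * q) = q * (z / q - p * b) := by field_simp
  rw [h3, norm_mul, H.cfg.q1, one_mul] at hz
  exact hz

/-- reflection in the real axis -/
lemma cj (H : Rev p b q A B C) :
    Rev p (conj b) (conj q) (conj ⁻¹' A) (conj ⁻¹' B) (conj ⁻¹' C) := by
  refine ⟨⟨?_, ?_, ?_, ?_, ?_, ?_, ?_, ?_, ?_, ?_, ?_, ?_⟩, H.hp, by rw [Complex.norm_conj, H.hb]⟩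
  · intro z hz; exact H.cfg.cov (conj z) (by rwa [Complex.norm_conj])
  · intro z hz; have := H.cfg.dA _ hz; rwa [Complex.norm_conj] at this
  · intro z hz; have := H.cfg.dB _ hz; rwa [Complex.norm_conj] at this
  · intro z hz; have := H.cfg.dC _ hz; rwa [Complex.norm_conj] at this
  · intro z hz; exact H.cfg.AB _ hz
  · intro z hz; exact H.cfg.AC _ hz
  · intro z hz; exact H.cfg.BC _ hz
  · rw [Complex.norm_conj, H.cfg.q1]
  · intro z hz
    have := H.cfg.rho _ hz
    simpa using this
  · intro z hz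
    apply H.cfg.rhi
    simpa using hz
  · intro z hz
    have := H.cfg.hBA _ hz
    simpa [hr] using this
  · intro z hz
    have := H.cfg.hAB _ hz
    simpa [hri] using this

/-- the mirror symmetry exchanging `B` and `C` -/
lemma mirror (H : Rev p b q A B C) :
    Rev p (conj (b * q)) q (conj ⁻¹' A) (conj ⁻¹' C) (conj ⁻¹' B) := by
  have hqq := conj_mul_self_of_norm H.cfg.q1
  refine ⟨⟨?_, ?_, ?_, ?_, ?_, ?_, ?_, ?_, ?_, ?_, ?_, ?_⟩, H.hp,
    by rw [Complex.norm_conj, norm_mul, H.hb, H.cfg.q1, one_mul]⟩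
  · intro z hz
    rcases H.cfg.cov (conj z) (by rwa [Complex.norm_conj]) with h | h | h
    · left; exact h
    · right; right; exact h
    · right; left; exact h
  · intro z hz; have := H.cfg.dA _ hz; rwa [Complex.norm_conj] at this
  · intro z hz; have := H.cfg.dC _ hz; rwa [Complex.norm_conj] at this
  · intro z hz; have := H.cfg.dB _ hz; rwa [Complex.norm_conj] at this
  · intro z hz; exact H.cfg.AC _ hz
  · intro z hz; exact H.cfg.AB _ hz
  · intro z hz h; exact H.cfg.BC _ h hz
  · exact H.cfg.q1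
  · intro z hz
    show conj (q * z) ∈ B
    apply H.cfg.rhi
    rw [map_mul, ← mul_assoc, mul_comm q, hqq, one_mul]
    exact hz
  · intro z hz
    show conj z ∈ C
    have := H.cfg.rho _ hz
    rw [map_mul, ← mul_assoc, mul_comm q, hqq, one_mul] at this
    exact this
  · intro z hz
    have h1 : conj z ∈ C := hz
    have h2 : conj q * conj z ∈ B := by
      apply H.cfg.rhi
      rw [← mul_assoc, mul_comm q, hqq, one_mul]
      exact h1
    have h3 := H.cfg.hBA _ h2
    show conj _ ∈ A
    convert h3 using 1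
    simp only [hr, map_sub, map_mul, Complex.conj_ofReal, Complex.conj_conj]
    ring
  · intro z hz
    have h1 : conj z ∈ A := hz
    have h2 := H.cfg.rho _ (H.cfg.hAB _ h1)
    show conj _ ∈ C
    convert h2 using 1
    simp only [hri, map_sub, map_mul, Complex.conj_ofReal, Complex.conj_conj]
    ring

end Rev

/-! ### angles -/

lemma cosle {a b : ℝ} (h1 : -b ≤ a) (h2 : a ≤ b) (h3 : b ≤ Real.pi) : Real.cos b ≤ Real.cos a := by
  rw [← Real.cos_abs a]
  exact Real.cos_le_cos_of_nonneg_of_le_pi (abs_nonneg a) h3 (abs_le.2 ⟨h1, h2⟩)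

lemma cos_nonneg' {a : ℝ} (h1 : -(Real.pi / 2) ≤ a) (h2 : a ≤ Real.pi / 2) : 0 ≤ Real.cos a :=
  Real.cos_nonneg_of_neg_pi_div_two_le_of_le h1 h2

lemma cos_nonpos' {a : ℝ} (h1 : Real.pi / 2 ≤ a) (h2 : a ≤ 3 * Real.pi / 2) : Real.cos a ≤ 0 :=
  Real.cos_nonpos_of_pi_div_two_le_of_le h1 (by linarith)

lemma E_two (x : ℝ) : E (2 * x) = E x ^ 2 := by rw [two_mul, E_add]; ring

lemma E_four (x : ℝ) : E (4 * x) = E x ^ 4 := by
  rw [show 4 * x = 2 * (2 * x) by ring, E_two, E_two]; ring

lemma E_six (x : ℝ) : E (6 * x) = E x ^ 6 := by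
  rw [show 6 * x = 2 * x + 4 * x by ring, E_add, E_two, E_four]; ring

/-- `out` for a single unit vector -/
lemma out1 (s t x a p : ℝ) (hs : s = 1 ∨ s = -1) (ht : t = 1 ∨ t = -1) (hp : 0 < p)
    (h : 0 ≤ s * t * Real.cos (a - x)) :
    1 < ‖(s : ℂ) * E x + p * ((t : ℂ) * E a)‖ := by
  apply out _ _ p _ hp
  · have : (conj ((s : ℂ) * E x) * ((t : ℂ) * E a)).re = s * t * Real.cos (a - x) := by
      have e : conj ((s : ℂ) * E x) * ((t : ℂ) * E a) = ((s * t : ℝ) : ℂ) * (conj (E x) * E a) := by
        rw [map_mul, Complex.conj_ofReal]; push_cast; ring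
      rw [e, Complex.re_ofReal_mul, re_EE]
    rw [this]; exact h
  · apply mul_ne_zero _ (E_ne a)
    rcases ht with rfl | rfl <;> simp
  · rw [norm_mul, E_norm]; rcases hs with rfl | rfl <;> simp

lemma E_half_pi : E (Real.pi / 2) = I := by
  simp [E, Complex.exp_pi_div_two_mul_I]

/-- hypotheses of the reversing case, with half angles -/
structure RevA (p x y z : ℝ) (A B C : Set ℂ) : Prop where
  rev : Rev p (E (2 * x)) (E (2 * y)) A B C
  x0 : 0 < x
  y0 : 0 < y
  z0 : 0 < z
  x1 : x < Real.pi / 2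
  y1 : y < Real.pi / 2
  z1 : z < Real.pi / 2
  sum : x + y + z = Real.pi

namespace RevA

variable {p x y z : ℝ} {A B C : Set ℂ}

lemma mirror (H : RevA p x y z A B C) :
    RevA p z y x (conj ⁻¹' A) (conj ⁻¹' C) (conj ⁻¹' B) := by
  have h := H.rev.mirror
  have e : conj (E (2 * x) * E (2 * y)) = E (2 * z) := by
    have hs := H.sum
    rw [← E_add, E_conj, ← E_neg, show 2 * z = 2 * Real.pi + -(2 * x + 2 * y) by linarith, E_add,
      E_two_pi, one_mul]
  rw [e] at h
  exact ⟨h, H.z0, H.y0, H.x0, H.z1, H.y1, H.x1, by linarith [H.sum]⟩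

lemma I_B (H : RevA p x y z A B C) (hxy : x < y) : E (2 * x + y) ∉ B := by
  obtain ⟨hR, x0, y0, z0, x1, y1, z1, hs⟩ := H
  have hC := hR.cfg
  have hpi := Real.pi_pos
  have hEx := E_ne x
  have hEy := E_ne y
  intro hB
  have h1 := hC.hBA _ hB
  have h2 := hC.nC (hC.AB _ h1)
  have h3 : ‖E (2 * y) * hr p (E (2 * x)) (E (2 * x + y))‖ ≤ 1 := by
    rw [norm_mul, hC.q1, one_mul]; exact hC.dA _ h1
  have e : E (2 * y) * hr p (E (2 * x)) (E (2 * x + y)) = p * E (2 * y) - E y := by
    simp only [hr, hri, E_add, E_sub, E_neg, E_two, E_four, E_six, E_zero, E_pi, E_half_pi,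
      map_mul, map_sub, map_add, map_pow, map_div₀, map_inv₀, map_neg, map_one,
      Complex.conj_ofReal, Complex.conj_I, E_conj, Complex.ofReal_one, Complex.ofReal_neg]
    field_simp
  rw [e] at h2 h3
  rcases hC.cov _ h3 with h | h | h
  · refine hR.nA ?_ h
    have := out2 (-1) y (2 * y) 0 p (Or.inr rfl) hR.hp
      (E_ne_E (by linarith) (by linarith)).symm (by rw [zero_sub, Real.cos_neg]; ring_nf; exact le_rfl)
    convert this using 2
    simp only [hr, hri, E_add, E_sub, E_neg, E_two, E_four, E_six, E_zero, E_pi, E_half_pi,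
      map_mul, map_sub, map_add, map_pow, map_div₀, map_inv₀, map_neg, map_one,
      Complex.conj_ofReal, Complex.conj_I, E_conj, Complex.ofReal_one, Complex.ofReal_neg]
    ring
  · refine hR.nB ?_ h
    have := out2 (-1) y (2 * y) (2 * x) p (Or.inr rfl) hR.hp
      (E_ne_E (by linarith) (by linarith)).symm (by
        have : Real.cos y ≤ Real.cos (2 * x - y) := cosle (by linarith) (by linarith) (by linarith)
        rw [show 2 * y - y = y by ring]; linarith)
    convert this using 2
    simp only [hr, hri, E_add, E_sub, E_neg, E_two, E_four, E_six, E_zero, E_pi, E_half_pi,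
      map_mul, map_sub, map_add, map_pow, map_div₀, map_inv₀, map_neg, map_one,
      Complex.conj_ofReal, Complex.conj_I, E_conj, Complex.ofReal_one, Complex.ofReal_neg]
    ring
  · exact h2 h

lemma I_C (H : RevA p x y z A B C) (hzy : z < y) : E (2 * x + y) ∉ C := by
  have h := H.mirror.I_B hzy
  intro hC
  apply h
  show conj _ ∈ C
  convert hC using 1
  have hs := H.sum
  rw [E_conj, ← E_neg, show 2 * x + y = 2 * Real.pi + -(2 * z + y) by linarith, E_add, E_two_pi,
    one_mul]

lemma I_A (H : RevA p x y z A B C) : E (2 * x + y) ∉ A := by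
  obtain ⟨hR, x0, y0, z0, x1, y1, z1, hs⟩ := H
  apply hR.nA
  have := out1 1 (-1) (2 * x + y) 0 p (Or.inl rfl) (Or.inr rfl) hR.hp (by
    have : Real.cos (0 - (2 * x + y)) ≤ 0 := by
      rw [zero_sub, Real.cos_neg]
      exact cos_nonpos' (by linarith) (by linarith)
    linarith)
  convert this using 2
  simp only [hr, hri, E_add, E_sub, E_neg, E_two, E_four, E_six, E_zero, E_pi, E_half_pi,
    map_mul, map_sub, map_add, map_pow, map_div₀, map_inv₀, map_neg, map_one,
    Complex.conj_ofReal, Complex.conj_I, E_conj, Complex.ofReal_one, Complex.ofReal_neg]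
  ring

lemma caseI (H : RevA p x y z A B C) (hxy : x < y) (hzy : z < y) : False := by
  rcases H.rev.cfg.cov (E (2 * x + y)) (E_norm _).le with h | h | h
  · exact H.I_A h
  · exact H.I_B hxy h
  · exact H.I_C hzy h

lemma IV_B (H : RevA p x y z A B C) (hyx : y < x) (hyz : |z - y| ≤ Real.pi / 4) :
    (-1 : ℂ) ∉ B := by
  obtain ⟨hR, x0, y0, z0, x1, y1, z1, hs⟩ := H
  have hC := hR.cfg
  have hpi := Real.pi_pos
  have hEx := E_ne x
  have hEy := E_ne y
  obtain ⟨hz1, hz2⟩ := abs_le.1 hyz
  intro hB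
  have e1 : E (2 * y) * (-E (-(2 * y))) = -1 := by
    simp only [hr, hri, E_add, E_sub, E_neg, E_two, E_four, E_six, E_zero, E_pi, E_half_pi,
      map_mul, map_sub, map_add, map_pow, map_div₀, map_inv₀, map_neg, map_one,
      Complex.conj_ofReal, Complex.conj_I, E_conj, Complex.ofReal_one, Complex.ofReal_neg]
    field_simp
  have h1 : -E (-(2 * y)) ∉ B := hC.nB (by rw [e1]; exact hC.BC _ hB)
  have h2 : -E (-(2 * y)) ∉ C := by
    apply hR.nC
    have := out1 (-1) (-1) (-(2 * y)) (2 * x + 2 * y) p (Or.inr rfl) (Or.inr rfl) hR.hp (by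
      have : 0 ≤ Real.cos (2 * x + 2 * y - -(2 * y)) := by
        rw [show 2 * x + 2 * y - -(2 * y) = (2 * y - 2 * z) + 2 * Real.pi by linarith,
          Real.cos_add_two_pi]
        exact cos_nonneg' (by linarith) (by linarith)
      linarith)
    convert this using 2
    simp only [hr, hri, E_add, E_sub, E_neg, E_two, E_four, E_six, E_zero, E_pi, E_half_pi,
      map_mul, map_sub, map_add, map_pow, map_div₀, map_inv₀, map_neg, map_one,
      Complex.conj_ofReal, Complex.conj_I, E_conj, Complex.ofReal_one, Complex.ofReal_neg]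
    ring
  have h3 : -E (-(2 * y)) ∈ A := hC.isA (by rw [norm_neg, E_norm]) h1 h2
  have h4 := hC.hAB _ h3
  have h5 : E (2 * x) + p * E (2 * x - 2 * y) ∉ B := by
    apply hC.nB
    have e : E (2 * y) * (E (2 * x) + p * E (2 * x - 2 * y)) = hri p (E (2 * x)) (-E (-(2 * y))) := by
      simp only [hr, hri, E_add, E_sub, E_neg, E_two, E_four, E_six, E_zero, E_pi, E_half_pi,
        map_mul, map_sub, map_add, map_pow, map_div₀, map_inv₀, map_neg, map_one,
        Complex.conj_ofReal, Complex.conj_I, E_conj, Complex.ofReal_one, Complex.ofReal_neg]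
      field_simp
      ring
    rw [e]
    exact hC.BC _ h4
  have h6 : ‖E (2 * x) + p * E (2 * x - 2 * y)‖ ≤ 1 := by
    have e : E (2 * y) * (E (2 * x) + p * E (2 * x - 2 * y)) = hri p (E (2 * x)) (-E (-(2 * y))) := by
      simp only [hr, hri, E_add, E_sub, E_neg, E_two, E_four, E_six, E_zero, E_pi, E_half_pi,
        map_mul, map_sub, map_add, map_pow, map_div₀, map_inv₀, map_neg, map_one,
        Complex.conj_ofReal, Complex.conj_I, E_conj, Complex.ofReal_one, Complex.ofReal_neg]
      field_simp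
      ring
    have := hC.dB _ h4
    rw [← e, norm_mul, hC.q1, one_mul] at this
    exact this
  rcases hC.cov _ h6 with h | h | h
  · refine hR.nA ?_ h
    have := out2 1 (2 * x) (2 * x - 2 * y) 0 p (Or.inl rfl) hR.hp
      (E_ne_E (by linarith) (by linarith)).symm (by
        have : Real.cos (2 * x) ≤ Real.cos (2 * y) := cosle (by linarith) (by linarith) (by linarith)
        rw [zero_sub, Real.cos_neg, show 2 * x - 2 * y - 2 * x = -(2 * y) by ring, Real.cos_neg]
        linarith)
    convert this using 2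
    simp only [hr, hri, E_add, E_sub, E_neg, E_two, E_four, E_six, E_zero, E_pi, E_half_pi,
      map_mul, map_sub, map_add, map_pow, map_div₀, map_inv₀, map_neg, map_one,
      Complex.conj_ofReal, Complex.conj_I, E_conj, Complex.ofReal_one, Complex.ofReal_neg]
    ring
  · exact h5 h
  · refine hR.nC ?_ h
    have := out2 1 (2 * x) (2 * x - 2 * y) (2 * x + 2 * y) p (Or.inl rfl) hR.hp
      (E_ne_E (by linarith) (by linarith)) (by
        rw [show 2 * x + 2 * y - 2 * x = 2 * y by ring,
          show 2 * x - 2 * y - 2 * x = -(2 * y) by ring, Real.cos_neg])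
    convert this using 2
    simp only [hr, hri, E_add, E_sub, E_neg, E_two, E_four, E_six, E_zero, E_pi, E_half_pi,
      map_mul, map_sub, map_add, map_pow, map_div₀, map_inv₀, map_neg, map_one,
      Complex.conj_ofReal, Complex.conj_I, E_conj, Complex.ofReal_one, Complex.ofReal_neg]
    ring

lemma IV_C (H : RevA p x y z A B C) (hyx : y < z) (hyz : |x - y| ≤ Real.pi / 4) :
    (-1 : ℂ) ∉ C := by
  intro h
  refine H.mirror.IV_B hyx hyz ?_
  show conj _ ∈ C
  simpa using h

lemma caseIV (H : RevA p x y z A B C) (hyx : y < x) (hyz : y < z) (hy : Real.pi / 4 ≤ y) :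
    False := by
  have hx1 := H.x1
  have hz1 := H.z1
  rcases H.rev.cfg.cov (-1) (by simp) with h | h | h
  · refine H.rev.nA ?_ h
    have := out1 (-1) (-1) 0 0 p (Or.inr rfl) (Or.inr rfl) H.rev.hp (by simp)
    convert this using 2
    simp only [hr, hri, E_add, E_sub, E_neg, E_two, E_four, E_six, E_zero, E_pi, E_half_pi,
      map_mul, map_sub, map_add, map_pow, map_div₀, map_inv₀, map_neg, map_one,
      Complex.conj_ofReal, Complex.conj_I, E_conj, Complex.ofReal_one, Complex.ofReal_neg]
    ring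
  · exact H.IV_B hyx (abs_le.2 ⟨by linarith, by linarith⟩) h
  · exact H.IV_C hyz (abs_le.2 ⟨by linarith, by linarith⟩) h

lemma II_A (H : RevA p x y z A B C) (hyx : y ≤ x) (hzy : z ≤ y) : E (2 * y + x) ∉ A := by
  obtain ⟨hR, x0, y0, z0, x1, y1, z1, hs⟩ := H
  apply hR.nA
  have := out1 1 (-1) (2 * y + x) 0 p (Or.inl rfl) (Or.inr rfl) hR.hp (by
    have : Real.cos (0 - (2 * y + x)) ≤ 0 := by
      rw [zero_sub, Real.cos_neg]
      exact cos_nonpos' (by linarith) (by linarith)
    linarith)
  convert this using 2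
  simp only [hr, hri, E_add, E_sub, E_neg, E_two, E_four, E_six, E_zero, E_pi, E_half_pi,
    map_mul, map_sub, map_add, map_pow, map_div₀, map_inv₀, map_neg, map_one,
    Complex.conj_ofReal, Complex.conj_I, E_conj, Complex.ofReal_one, Complex.ofReal_neg]
  ring

lemma II_aC (H : RevA p x y z A B C) (hyx : y ≤ x) (hzy : z ≤ y) : E x ∉ C := by
  obtain ⟨hR, x0, y0, z0, x1, y1, z1, hs⟩ := H
  apply hR.nC
  have := out1 1 (-1) x (2 * x + 2 * y) p (Or.inl rfl) (Or.inr rfl) hR.hp (by
    have : Real.cos (2 * x + 2 * y - x) ≤ 0 := by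
      exact cos_nonpos' (by linarith) (by linarith)
    linarith)
  convert this using 2
  simp only [hr, hri, E_add, E_sub, E_neg, E_two, E_four, E_six, E_zero, E_pi, E_half_pi,
    map_mul, map_sub, map_add, map_pow, map_div₀, map_inv₀, map_neg, map_one,
    Complex.conj_ofReal, Complex.conj_I, E_conj, Complex.ofReal_one, Complex.ofReal_neg]
  ring

lemma II_B (H : RevA p x y z A B C) (hyx : y < x) (hzy : z ≤ y) : E (2 * y + x) ∉ B := by
  have haC := H.II_aC hyx.le hzy
  obtain ⟨hR, x0, y0, z0, x1, y1, z1, hs⟩ := H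
  have hC := hR.cfg
  have hpi := Real.pi_pos
  have hEx := E_ne x
  have hEy := E_ne y
  intro hB
  have h1 : E x ∉ B := hC.nB (by rw [← E_add]; exact hC.BC _ hB)
  have h3 : E x ∈ A := hC.isA (E_norm _).le h1 haC
  have h4 := hC.hAB _ h3
  have e : E (2 * y) * (-E (x - 2 * y) + p * E (2 * x - 2 * y)) = hri p (E (2 * x)) (E x) := by
    simp only [hr, hri, E_add, E_sub, E_neg, E_two, E_four, E_six, E_zero, E_pi, E_half_pi,
      map_mul, map_sub, map_add, map_pow, map_div₀, map_inv₀, map_neg, map_one,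
      Complex.conj_ofReal, Complex.conj_I, E_conj, Complex.ofReal_one, Complex.ofReal_neg]
    field_simp
    ring
  have h5 : -E (x - 2 * y) + p * E (2 * x - 2 * y) ∉ B :=
    hC.nB (by rw [e]; exact hC.BC _ h4)
  have h6 : ‖-E (x - 2 * y) + p * E (2 * x - 2 * y)‖ ≤ 1 := by
    have := hC.dB _ h4
    rw [← e, norm_mul, hC.q1, one_mul] at this
    exact this
  rcases hC.cov _ h6 with h | h | h
  · refine hR.nA ?_ h
    have := out2 (-1) (x - 2 * y) (2 * x - 2 * y) 0 p (Or.inr rfl) hR.hp
      (E_ne_E (by linarith) (by linarith)).symm (by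
        have : Real.cos x ≤ Real.cos (2 * y - x) := cosle (by linarith) (by linarith) (by linarith)
        rw [show 0 - (x - 2 * y) = 2 * y - x by ring,
          show 2 * x - 2 * y - (x - 2 * y) = x by ring]
        linarith)
    convert this using 2
    simp only [hr, hri, E_add, E_sub, E_neg, E_two, E_four, E_six, E_zero, E_pi, E_half_pi,
      map_mul, map_sub, map_add, map_pow, map_div₀, map_inv₀, map_neg, map_one,
      Complex.conj_ofReal, Complex.conj_I, E_conj, Complex.ofReal_one, Complex.ofReal_neg]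
    ring
  · exact h5 h
  · refine hR.nC ?_ h
    have := out2 (-1) (x - 2 * y) (2 * x - 2 * y) (2 * x + 2 * y) p (Or.inr rfl) hR.hp
      (E_ne_E (by linarith) (by linarith)) (by
        have : Real.cos x ≤ Real.cos (2 * y - x - 2 * z) :=
          cosle (by linarith) (by linarith) (by linarith)
        rw [show 2 * x + 2 * y - (x - 2 * y) = (2 * y - x - 2 * z) + 2 * Real.pi by linarith,
          Real.cos_add_two_pi, show 2 * x - 2 * y - (x - 2 * y) = x by ring]
        linarith)
    convert this using 2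
    simp only [hr, hri, E_add, E_sub, E_neg, E_two, E_four, E_six, E_zero, E_pi, E_half_pi,
      map_mul, map_sub, map_add, map_pow, map_div₀, map_inv₀, map_neg, map_one,
      Complex.conj_ofReal, Complex.conj_I, E_conj, Complex.ofReal_one, Complex.ofReal_neg]
    ring

lemma II_C (H : RevA p x y z A B C) (hyx : y ≤ x) (hzy : z < y) : E (2 * y + x) ∉ C := by
  have haC := H.II_aC hyx hzy.le
  obtain ⟨hR, x0, y0, z0, x1, y1, z1, hs⟩ := H
  have hC := hR.cfg
  have hpi := Real.pi_pos
  have hEx := E_ne x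
  have hEy := E_ne y
  intro hB
  have h3 : E x ∈ B := hC.rhi _ (by rw [← E_add]; exact hB)
  have h4 := hC.hBA _ h3
  have e : E (2 * y) * (-E (x - 2 * y) + p * E (-(2 * y))) = hr p (E (2 * x)) (E x) := by
    simp only [hr, hri, E_add, E_sub, E_neg, E_two, E_four, E_six, E_zero, E_pi, E_half_pi,
      map_mul, map_sub, map_add, map_pow, map_div₀, map_inv₀, map_neg, map_one,
      Complex.conj_ofReal, Complex.conj_I, E_conj, Complex.ofReal_one, Complex.ofReal_neg]
    field_simp
    ring
  have h5 : -E (x - 2 * y) + p * E (-(2 * y)) ∉ B :=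
    hC.nB (by rw [e]; exact hC.AC _ h4)
  have h6 : ‖-E (x - 2 * y) + p * E (-(2 * y))‖ ≤ 1 := by
    have := hC.dA _ h4
    rw [← e, norm_mul, hC.q1, one_mul] at this
    exact this
  rcases hC.cov _ h6 with h | h | h
  · refine hR.nA ?_ h
    have := out2 (-1) (x - 2 * y) (-(2 * y)) 0 p (Or.inr rfl) hR.hp
      (E_ne_E (by linarith) (by linarith)) (by
        have : Real.cos x ≤ Real.cos (2 * y - x) := cosle (by linarith) (by linarith) (by linarith)
        rw [show 0 - (x - 2 * y) = 2 * y - x by ring,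
          show -(2 * y) - (x - 2 * y) = - x by ring, Real.cos_neg]
        linarith)
    convert this using 2
    simp only [hr, hri, E_add, E_sub, E_neg, E_two, E_four, E_six, E_zero, E_pi, E_half_pi,
      map_mul, map_sub, map_add, map_pow, map_div₀, map_inv₀, map_neg, map_one,
      Complex.conj_ofReal, Complex.conj_I, E_conj, Complex.ofReal_one, Complex.ofReal_neg]
    ring
  · exact h5 h
  · refine hR.nC ?_ h
    have hne : E (-(2 * y)) ≠ E (2 * x + 2 * y) := by
      rw [← mul_one (E (-(2 * y))), ← E_two_pi, ← E_add]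
      exact E_ne_E (by linarith) (by linarith)
    have := out2 (-1) (x - 2 * y) (-(2 * y)) (2 * x + 2 * y) p (Or.inr rfl) hR.hp hne (by
        have : Real.cos x ≤ Real.cos (2 * y - x - 2 * z) :=
          cosle (by linarith) (by linarith) (by linarith)
        rw [show 2 * x + 2 * y - (x - 2 * y) = (2 * y - x - 2 * z) + 2 * Real.pi by linarith,
          Real.cos_add_two_pi, show -(2 * y) - (x - 2 * y) = -x by ring, Real.cos_neg]
        linarith)
    convert this using 2
    simp only [hr, hri, E_add, E_sub, E_neg, E_two, E_four, E_six, E_zero, E_pi, E_half_pi,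
      map_mul, map_sub, map_add, map_pow, map_div₀, map_inv₀, map_neg, map_one,
      Complex.conj_ofReal, Complex.conj_I, E_conj, Complex.ofReal_one, Complex.ofReal_neg]
    ring

lemma caseII (H : RevA p x y z A B C) (hyx : y < x) (hzy : z < y) : False := by
  rcases H.rev.cfg.cov (E (2 * y + x)) (E_norm _).le with h | h | h
  · exact H.II_A hyx.le hzy.le h
  · exact H.II_B hyx hzy.le h
  · exact H.II_C hyx.le hzy h

lemma caseIII (H : RevA p x y z A B C) (hxy : x < y) (hyz : y < z) : False :=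
  H.mirror.caseII hyz hxy

end RevA

end Pool.Agent.H59.Disc
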