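import Pool.Agent.H59.Disc.Rev

/-!
# The orientation reversing case: equality cases and small angles
-/

set_option linter.unusedSimpArgs false

open Complex ComplexConjugate

namespace Pool.Agent.H59.Disc

lemma sin_four (y : ℝ) : Real.sin (4 * y) = 2 * Real.sin (2 * y) * Real.cos (2 * y) := by
  rw [← Real.sin_two_mul]; ring_nf

lemma cos_four (y : ℝ) : Real.cos (4 * y) = 2 * Real.cos (2 * y) ^ 2 - 1 := by
  rw [← Real.cos_two_mul]; ring_nf

namespace RevA

variable {p x y z : ℝ} {A B C : Set ℂ}

/-- equality case `b = q`, angle of `q` larger than `2π/3` -/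
lemma eq_large (H : RevA p y y z A B C) (hy : Real.pi / 3 < y) : False := by
  obtain ⟨hR, -, y0, z0, -, y1, z1, hs⟩ := H
  have hC := hR.cfg
  have hpi := Real.pi_pos
  have hEy := E_ne y
  have hI : I ^ 2 = -1 := Complex.I_sq
  have hsin : Real.sin (2 * y) + Real.sin (4 * y) ≤ 0 := by
    have e : Real.sin (2 * y) + Real.sin (4 * y) =
        Real.sin (2 * y) * (1 + 2 * Real.cos (2 * y)) := by
      rw [sin_four]; ring
    have h1 : 0 ≤ Real.sin (2 * y) := Real.sin_nonneg_of_nonneg_of_le_pi (by linarith) (by linarith)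
    have h2 : Real.cos (2 * y) ≤ -(1 / 2) := by
      have : Real.cos (2 * y) ≤ Real.cos (Real.pi - Real.pi / 3) :=
        cosle (by linarith) (by linarith) (by linarith)
      rw [Real.cos_pi_sub, Real.cos_pi_div_three] at this
      linarith
    rw [e]
    exact mul_nonpos_of_nonneg_of_nonpos h1 (by linarith)
  have hA : I ∉ A := by
    apply hR.nA
    have := out1 1 (-1) (Real.pi / 2) 0 p (Or.inl rfl) (Or.inr rfl) hR.hp (by simp)
    convert this using 2
    simp only [hr, hri, E_add, E_sub, E_neg, E_two, E_four, E_six, E_zero, E_pi, E_half_pi,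
      map_mul, map_sub, map_add, map_pow, map_div₀, map_inv₀, map_neg, map_one,
      Complex.conj_ofReal, Complex.conj_I, E_conj, Complex.ofReal_one, Complex.ofReal_neg]
    ring
  have hCC : I ∉ C := by
    apply hR.nC
    have := out1 1 (-1) (Real.pi / 2) (4 * y) p (Or.inl rfl) (Or.inr rfl) hR.hp (by
      have : Real.cos (4 * y - Real.pi / 2) ≤ 0 := cos_nonpos' (by linarith) (by linarith)
      linarith)
    convert this using 2
    simp only [hr, hri, E_add, E_sub, E_neg, E_two, E_four, E_six, E_zero, E_pi, E_half_pi,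
      map_mul, map_sub, map_add, map_pow, map_div₀, map_inv₀, map_neg, map_one,
      Complex.conj_ofReal, Complex.conj_I, E_conj, Complex.ofReal_one, Complex.ofReal_neg]
    ring
  have hB : I ∈ B := hC.isB (by simp) hA hCC
  have h1 := hC.hBA _ hB
  -- w = q⁻¹ h i
  have e1 : E (2 * y) * (I + p * E (-(2 * y))) = hr p (E (2 * y)) I := by
    simp only [hr, hri, E_add, E_sub, E_neg, E_two, E_four, E_six, E_zero, E_pi, E_half_pi,
      map_mul, map_sub, map_add, map_pow, map_div₀, map_inv₀, map_neg, map_one,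
      Complex.conj_ofReal, Complex.conj_I, E_conj, Complex.ofReal_one, Complex.ofReal_neg]
    field_simp
    ring
  have h2 : I + p * E (-(2 * y)) ∉ B := hC.nB (by rw [e1]; exact hC.AC _ h1)
  have h3 : ‖I + p * E (-(2 * y))‖ ≤ 1 := by
    have := hC.dA _ h1
    rwa [← e1, norm_mul, hC.q1, one_mul] at this
  have h4 : I + p * E (-(2 * y)) ∉ C := by
    apply hR.nC
    have hne : E (-(2 * y)) ≠ E (4 * y) := by
      rw [← mul_one (E (-(2 * y))), ← E_two_pi, ← E_add]
      exact E_ne_E (by linarith) (by linarith)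
    have := out2 1 (Real.pi / 2) (-(2 * y)) (4 * y) p (Or.inl rfl) hR.hp hne (by
      rw [Real.cos_sub_pi_div_two, Real.cos_sub_pi_div_two, Real.sin_neg]
      linarith)
    convert this using 2
    simp only [hr, hri, E_add, E_sub, E_neg, E_two, E_four, E_six, E_zero, E_pi, E_half_pi,
      map_mul, map_sub, map_add, map_pow, map_div₀, map_inv₀, map_neg, map_one,
      Complex.conj_ofReal, Complex.conj_I, E_conj, Complex.ofReal_one, Complex.ofReal_neg]
    ring
  have h5 := hC.isA h3 h2 h4
  have h6 := hC.hAB _ h5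
  have e2 : E (2 * y) * (I + p * (1 - E (2 * y))) = hri p (E (2 * y)) (I + p * E (-(2 * y))) := by
    simp only [hr, hri, E_add, E_sub, E_neg, E_two, E_four, E_six, E_zero, E_pi, E_half_pi,
      map_mul, map_sub, map_add, map_pow, map_div₀, map_inv₀, map_neg, map_one,
      Complex.conj_ofReal, Complex.conj_I, E_conj, Complex.ofReal_one, Complex.ofReal_neg]
    field_simp
    ring
  have h7 : I + p * (1 - E (2 * y)) ∉ B := hC.nB (by rw [e2]; exact hC.BC _ h6)
  have h8 : ‖I + p * (1 - E (2 * y))‖ ≤ 1 := by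
    have := hC.dB _ h6
    rwa [← e2, norm_mul, hC.q1, one_mul] at this
  have h9 : I + p * (1 - E (2 * y)) ∉ C := by
    apply hR.nC
    have := out I (1 - E (2 * y) - E (4 * y)) p (by simp) hR.hp (by
      simp [E_re, E_im]; linarith) (by
      intro h
      have h1 := congrArg Complex.im h
      have h2 := congrArg Complex.re h
      simp [E_re, E_im] at h1 h2
      have hc : Real.cos (2 * y) + Real.cos (4 * y) = 1 := by linarith
      have hs2 : Real.sin (2 * y) + Real.sin (4 * y) = 0 := by linarith
      rw [sin_four] at hs2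
      rw [cos_four] at hc
      have h3 : 0 < Real.sin (2 * y) := Real.sin_pos_of_pos_of_lt_pi (by linarith) (by linarith)
      have h4 : 1 + 2 * Real.cos (2 * y) = 0 := by
        have : Real.sin (2 * y) * (1 + 2 * Real.cos (2 * y)) = 0 := by linarith
        rcases mul_eq_zero.1 this with h | h
        · exact absurd h h3.ne'
        · exact h
      nlinarith)
    convert this using 2
    simp only [hr, hri, E_add, E_sub, E_neg, E_two, E_four, E_six, E_zero, E_pi, E_half_pi,
      map_mul, map_sub, map_add, map_pow, map_div₀, map_inv₀, map_neg, map_one,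
      Complex.conj_ofReal, Complex.conj_I, E_conj, Complex.ofReal_one, Complex.ofReal_neg]
    ring
  have h10 := hC.isA h8 h7 h9
  have h11 := hC.hAB _ h10
  have e3 : hri p (E (2 * y)) (I + p * (1 - E (2 * y))) = hr p (E (2 * y)) I := by
    simp only [hr, hri, E_add, E_sub, E_neg, E_two, E_four, E_six, E_zero, E_pi, E_half_pi,
      map_mul, map_sub, map_add, map_pow, map_div₀, map_inv₀, map_neg, map_one,
      Complex.conj_ofReal, Complex.conj_I, E_conj, Complex.ofReal_one, Complex.ofReal_neg]
    field_simp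
    ring
  rw [e3] at h11
  exact hC.AB _ h1 h11

/-- equality case `b = q`, angle of `q` smaller than `2π/3` -/
lemma eq_small (H : RevA p y y z A B C) (hy : y < Real.pi / 3) : False := by
  obtain ⟨hR, -, y0, z0, -, y1, z1, hs⟩ := H
  have hC := hR.cfg
  have hpi := Real.pi_pos
  have hEy := E_ne y
  have hI : I ^ 2 = -1 := Complex.I_sq
  have hsin0 : 0 ≤ Real.sin (2 * y) :=
    Real.sin_nonneg_of_nonneg_of_le_pi (by linarith) (by linarith)
  have hcos2 : -(1 / 2) < Real.cos (2 * y) := by
    have : Real.cos (Real.pi - Real.pi / 3) < Real.cos (2 * y) :=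
      Real.cos_lt_cos_of_nonneg_of_le_pi (by linarith) (by linarith) (by linarith)
    rw [Real.cos_pi_sub, Real.cos_pi_div_three] at this
    linarith
  have hsin : 0 < Real.sin (2 * y) + Real.sin (4 * y) := by
    have e : Real.sin (2 * y) + Real.sin (4 * y) =
        Real.sin (2 * y) * (1 + 2 * Real.cos (2 * y)) := by
      rw [sin_four]; ring
    have h1 : 0 < Real.sin (2 * y) := Real.sin_pos_of_pos_of_lt_pi (by linarith) (by linarith)
    rw [e]
    exact mul_pos h1 (by linarith)
  -- u = i q²
  have hB : I * E (4 * y) ∉ B := by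
    apply hR.nB
    have := out1 1 (-1) (4 * y + Real.pi / 2) (2 * y) p (Or.inl rfl) (Or.inr rfl) hR.hp (by
      have : Real.cos (2 * y - (4 * y + Real.pi / 2)) ≤ 0 := by
        rw [show 2 * y - (4 * y + Real.pi / 2) = -(2 * y + Real.pi / 2) by ring, Real.cos_neg,
          Real.cos_add_pi_div_two]
        linarith
      linarith)
    convert this using 2
    simp only [hr, hri, E_add, E_sub, E_neg, E_two, E_four, E_six, E_zero, E_pi, E_half_pi,
      map_mul, map_sub, map_add, map_pow, map_div₀, map_inv₀, map_neg, map_one,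
      Complex.conj_ofReal, Complex.conj_I, E_conj, Complex.ofReal_one, Complex.ofReal_neg]
    ring
  have hCC : I * E (4 * y) ∉ C := by
    apply hR.nC
    have := out1 1 (-1) (4 * y + Real.pi / 2) (4 * y) p (Or.inl rfl) (Or.inr rfl) hR.hp (by
      rw [show 4 * y - (4 * y + Real.pi / 2) = -(Real.pi / 2) by ring, Real.cos_neg,
        Real.cos_pi_div_two]
      simp)
    convert this using 2
    simp only [hr, hri, E_add, E_sub, E_neg, E_two, E_four, E_six, E_zero, E_pi, E_half_pi,
      map_mul, map_sub, map_add, map_pow, map_div₀, map_inv₀, map_neg, map_one,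
      Complex.conj_ofReal, Complex.conj_I, E_conj, Complex.ofReal_one, Complex.ofReal_neg]
    ring
  have hA : I * E (4 * y) ∈ A := hC.isA (by simp [E_norm]) hB hCC
  have h1 := hC.hAB _ hA
  have h2 := hC.rho _ h1
  have h3 := hC.nC (fun h => hC.BC _ h h2)
  have e1 : E (2 * y) * (E (2 * y) * hri p (E (2 * y)) (I * E (4 * y))) =
      I * E (2 * y) + p * E (6 * y) := by
    simp only [hr, hri, E_add, E_sub, E_neg, E_two, E_four, E_six, E_zero, E_pi, E_half_pi,
      map_mul, map_sub, map_add, map_pow, map_div₀, map_inv₀, map_neg, map_one,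
      Complex.conj_ofReal, Complex.conj_I, E_conj, Complex.ofReal_one, Complex.ofReal_neg]
    field_simp
    ring
  have h4 : ‖I * E (2 * y) + p * E (6 * y)‖ ≤ 1 := by
    rw [← e1, norm_mul, hC.q1, one_mul]
    exact hC.dC _ h2
  rw [e1] at h3
  have h5 : I * E (2 * y) + p * E (6 * y) ∉ A := by
    apply hR.nA
    have := out2 1 (2 * y + Real.pi / 2) (6 * y) 0 p (Or.inl rfl) hR.hp
      (E_ne_E (by linarith) (by linarith)).symm (by
      rw [show 0 - (2 * y + Real.pi / 2) = -(2 * y + Real.pi / 2) by ring, Real.cos_neg,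
        Real.cos_add_pi_div_two,
        show 6 * y - (2 * y + Real.pi / 2) = 4 * y - Real.pi / 2 by ring,
        Real.cos_sub_pi_div_two]
      linarith)
    convert this using 2
    simp only [hr, hri, E_add, E_sub, E_neg, E_two, E_four, E_six, E_zero, E_pi, E_half_pi,
      map_mul, map_sub, map_add, map_pow, map_div₀, map_inv₀, map_neg, map_one,
      Complex.conj_ofReal, Complex.conj_I, E_conj, Complex.ofReal_one, Complex.ofReal_neg]
    ring
  have h6 := hC.isB h4 h5 h3
  have h7 := hC.hBA _ h6
  have h8 := hC.nC (hC.AB _ h7)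
  have e2 : E (2 * y) * hr p (E (2 * y)) (I * E (2 * y) + p * E (6 * y)) =
      I * E (2 * y) + p * (E (2 * y) - E (-(2 * y))) := by
    simp only [hr, hri, E_add, E_sub, E_neg, E_two, E_four, E_six, E_zero, E_pi, E_half_pi,
      map_mul, map_sub, map_add, map_pow, map_div₀, map_inv₀, map_neg, map_one,
      Complex.conj_ofReal, Complex.conj_I, E_conj, Complex.ofReal_one, Complex.ofReal_neg]
    field_simp
    ring
  have h9 : ‖I * E (2 * y) + p * (E (2 * y) - E (-(2 * y)))‖ ≤ 1 := by
    rw [← e2, norm_mul, hC.q1, one_mul]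
    exact hC.dA _ h7
  rw [e2] at h8
  have h10 : I * E (2 * y) + p * (E (2 * y) - E (-(2 * y))) ∉ A := by
    apply hR.nA
    have key : (conj (I * E (2 * y)) * (E (2 * y) - E (-(2 * y)) - 1)).re =
        Real.sin (2 * y) + Real.sin (4 * y) := by
      have e : conj (I * E (2 * y)) * (E (2 * y) - E (-(2 * y)) - 1) =
          -I * (1 - E (-(4 * y)) - E (-(2 * y))) := by
        simp only [hr, hri, E_add, E_sub, E_neg, E_two, E_four, E_six, E_zero, E_pi, E_half_pi,
          map_mul, map_sub, map_add, map_pow, map_div₀, map_inv₀, map_neg, map_one,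
          Complex.conj_ofReal, Complex.conj_I, E_conj, Complex.ofReal_one, Complex.ofReal_neg]
        field_simp
      rw [e]
      simp [E_im]; ring
    have := out (I * E (2 * y)) (E (2 * y) - E (-(2 * y)) - 1) p (by simp [E_norm]) hR.hp
      (by rw [key]; exact hsin.le) (by
        intro h
        rw [h] at key
        simp at key
        linarith)
    convert this using 2
    simp only [hr, hri, E_add, E_sub, E_neg, E_two, E_four, E_six, E_zero, E_pi, E_half_pi,
      map_mul, map_sub, map_add, map_pow, map_div₀, map_inv₀, map_neg, map_one,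
      Complex.conj_ofReal, Complex.conj_I, E_conj, Complex.ofReal_one, Complex.ofReal_neg]
    ring
  have h11 := hC.isB h9 h10 h8
  have h12 := hC.hBA _ h11
  have e3 : hr p (E (2 * y)) (I * E (2 * y) + p * (E (2 * y) - E (-(2 * y)))) =
      E (2 * y) * hri p (E (2 * y)) (I * E (4 * y)) := by
    simp only [hr, hri, E_add, E_sub, E_neg, E_two, E_four, E_six, E_zero, E_pi, E_half_pi,
      map_mul, map_sub, map_add, map_pow, map_div₀, map_inv₀, map_neg, map_one,
      Complex.conj_ofReal, Complex.conj_I, E_conj, Complex.ofReal_one, Complex.ofReal_neg]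
    field_simp
    ring
  rw [e3] at h12
  exact hC.AC _ h12 h2

end RevA

/-- if `q³ = 1` then `k⁻¹ = q⁻¹ h⁻¹` maps `A` to `A` -/
lemma Cfg.kinv {q : ℂ} {h hi : ℂ → ℂ} {A B C : Set ℂ} (H : Cfg q h hi A B C) (hq : q ^ 3 = 1)
    {w : ℂ} (hw : w ∈ A) : q ^ 2 * hi w ∈ A := by
  have h1 := H.hAB _ hw
  have h2 := H.rho _ h1
  have h3 := H.nC (fun h => H.BC _ h h2)
  rw [← mul_assoc, ← pow_two] at h3
  apply H.isA _ _ h3
  · rw [norm_mul, norm_pow, H.q1]; simpa using H.dB _ h1
  · apply H.nB
    rw [← mul_assoc, ← pow_succ', hq, one_mul]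
    exact H.BC _ h1

lemma Cfg.kinv_ne {q : ℂ} {h hi : ℂ → ℂ} {A B C : Set ℂ} (H : Cfg q h hi A B C)
    {w : ℂ} (hw : w ∈ A) : q ^ 2 * hi w ≠ 0 := by
  intro h0
  have h1 := H.hAB _ hw
  rcases mul_eq_zero.1 h0 with h | h
  · exact H.q0 (by simpa using h)
  · rw [h] at h1; exact H.AB _ H.zero_A h1

namespace Rev

variable {p : ℝ} {b q : ℂ} {A B C : Set ℂ}

lemma cube (H : Rev p b q A B C) (hq : q ^ 3 = 1) : False := by
  have hC := H.cfg
  have hbb := conj_mul_self_of_norm H.hb
  have hqq := conj_mul_self_of_norm hC.q1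
  have key : ∀ w ∈ A, w + p * (q ^ 2 * b - 1) ∈ A := by
    intro w hw
    have h := hC.kinv hq (hC.kinv hq hw)
    convert h using 1
    simp only [hri, map_mul, map_sub, map_pow, Complex.conj_ofReal, Complex.conj_conj]
    have e : conj q ^ 2 * conj b * q ^ 2 * b = 1 := by
      linear_combination (conj q * q + 1) * conj b * b * hqq + hbb
    linear_combination (p - w : ℂ) * e
  by_cases hne : q ^ 2 * b - 1 = 0
  · have h1 := hC.kinv hq hC.zero_A
    refine hC.kinv_ne h1 ?_
    simp only [hri, map_mul, map_pow, Complex.conj_ofReal, map_zero, sub_zero]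
    have e : conj q ^ 2 * conj b * q ^ 2 * b = 1 := by
      linear_combination (conj q * q + 1) * conj b * b * hqq + hbb
    linear_combination (p : ℂ) * hne - (p : ℂ) * e
  · have h2 : ∀ n : ℕ, (n : ℂ) * (p * (q ^ 2 * b - 1)) ∈ A := by
      intro n
      induction n with
      | zero => simpa using hC.zero_A
      | succ n ih =>
        have := key _ ih
        push_cast
        convert this using 1
        ring
    have h3 : 0 < ‖(p : ℂ) * (q ^ 2 * b - 1)‖ := by
      rw [norm_pos_iff]
      exact mul_ne_zero (by exact_mod_cast H.hp.ne') hne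
    obtain ⟨n, hn⟩ := exists_nat_gt (1 / ‖(p : ℂ) * (q ^ 2 * b - 1)‖)
    have h4 := hC.dA _ (h2 n)
    rw [norm_mul, Complex.norm_natCast] at h4
    rw [div_lt_iff₀ h3] at hn
    linarith

end Rev

end Pool.Agent.H59.Disc
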