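import Pool.Agent.H59.Disc.Rev2

/-!
# The orientation reversing case: conclusion
-/

set_option linter.unusedSimpArgs false

open Complex ComplexConjugate

namespace Pool.Agent.H59.Disc

namespace RevA

variable {p x y z : ℝ} {A B C : Set ℂ}

/-- medium small rotation angle -/
lemma small1 (H : RevA p x y z A B C) (h1 : Real.pi / 6 ≤ y) (h2 : y ≤ Real.pi / 4) : False := by
  obtain ⟨hR, x0, y0, z0, x1, y1, z1, hs⟩ := H
  have hC := hR.cfg
  have hpi := Real.pi_pos
  have hEx := E_ne x
  have hEy := E_ne y
  obtain ⟨t, t1, t2, t3, t4⟩ : ∃ t : ℝ, Real.pi / 2 + 2 * y ≤ t ∧ 2 * x + Real.pi / 2 - 2 * y ≤ t ∧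
      t ≤ 2 * x + 4 * y - Real.pi / 2 ∧ t ≤ 3 * Real.pi / 2 - 2 * y := by
    rcases le_total x (2 * y) with h | h
    · exact ⟨Real.pi / 2 + 2 * y, by linarith, by linarith, by linarith, by linarith⟩
    · exact ⟨2 * x + Real.pi / 2 - 2 * y, by linarith, by linarith, by linarith, by linarith⟩
  have hB : E (t - 2 * y) ∈ B := by
    apply hC.isB (E_norm _).le
    · apply hR.nA
      have := out1 1 (-1) (t - 2 * y) 0 p (Or.inl rfl) (Or.inr rfl) hR.hp (by
        have : Real.cos (0 - (t - 2 * y)) ≤ 0 := by
          rw [zero_sub, Real.cos_neg]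
          exact cos_nonpos' (by linarith) (by linarith)
        linarith)
      convert this using 2
      simp only [hr, hri, E_add, E_sub, E_neg, E_two, E_four, E_six, E_zero, E_pi, E_half_pi,
        map_mul, map_sub, map_add, map_pow, map_div₀, map_inv₀, map_neg, map_one,
        Complex.conj_ofReal, Complex.conj_I, E_conj, Complex.ofReal_one, Complex.ofReal_neg]
      ring
    · apply hR.nC
      have := out1 1 (-1) (t - 2 * y) (2 * x + 2 * y) p (Or.inl rfl) (Or.inr rfl) hR.hp (by
        have : Real.cos (2 * x + 2 * y - (t - 2 * y)) ≤ 0 :=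
          cos_nonpos' (by linarith) (by linarith)
        linarith)
      convert this using 2
      simp only [hr, hri, E_add, E_sub, E_neg, E_two, E_four, E_six, E_zero, E_pi, E_half_pi,
        map_mul, map_sub, map_add, map_pow, map_div₀, map_inv₀, map_neg, map_one,
        Complex.conj_ofReal, Complex.conj_I, E_conj, Complex.ofReal_one, Complex.ofReal_neg]
      ring
  have hCC : E (t + 2 * y) ∈ C := by
    apply hC.isC (E_norm _).le
    · apply hR.nA
      have := out1 1 (-1) (t + 2 * y) 0 p (Or.inl rfl) (Or.inr rfl) hR.hp (by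
        have : Real.cos (0 - (t + 2 * y)) ≤ 0 := by
          rw [zero_sub, Real.cos_neg]
          exact cos_nonpos' (by linarith) (by linarith)
        linarith)
      convert this using 2
      simp only [hr, hri, E_add, E_sub, E_neg, E_two, E_four, E_six, E_zero, E_pi, E_half_pi,
        map_mul, map_sub, map_add, map_pow, map_div₀, map_inv₀, map_neg, map_one,
        Complex.conj_ofReal, Complex.conj_I, E_conj, Complex.ofReal_one, Complex.ofReal_neg]
      ring
    · apply hR.nB
      have := out1 1 (-1) (t + 2 * y) (2 * x) p (Or.inl rfl) (Or.inr rfl) hR.hp (by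
        have : Real.cos (2 * x - (t + 2 * y)) ≤ 0 := by
          rw [← Real.cos_neg]
          exact cos_nonpos' (by linarith) (by linarith)
        linarith)
      convert this using 2
      simp only [hr, hri, E_add, E_sub, E_neg, E_two, E_four, E_six, E_zero, E_pi, E_half_pi,
        map_mul, map_sub, map_add, map_pow, map_div₀, map_inv₀, map_neg, map_one,
        Complex.conj_ofReal, Complex.conj_I, E_conj, Complex.ofReal_one, Complex.ofReal_neg]
      ring
  have e1 : E (2 * y) * E (t - 2 * y) = E t := by
    rw [← E_add]; congr 1; ring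
  have e2 : E (2 * y) * E t = E (t + 2 * y) := by
    rw [← E_add]; congr 1; ring
  have h3 := hC.rho _ hB
  rw [e1] at h3
  have h4 : E t ∈ B := hC.rhi _ (by rw [e2]; exact hCC)
  exact hC.BC _ h4 h3

lemma p_le (H : RevA p x y z A B C) : p ≤ 1 := by
  have h1 := H.rev.cfg.dB _ (H.rev.cfg.hAB _ H.rev.cfg.zero_A)
  rw [hri, map_zero, sub_zero, norm_mul, E_norm, one_mul, Complex.norm_real, Real.norm_eq_abs,
    abs_of_pos H.rev.hp] at h1
  exact h1

/-- very small rotation angle -/
lemma small2 (H : RevA p x y z A B C) (h1 : y ≤ Real.pi / 6) : False := by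
  have hp1 := H.p_le
  obtain ⟨hR, x0, y0, z0, x1, y1, z1, hs⟩ := H
  have hC := hR.cfg
  have hp := hR.hp
  have hpi := Real.pi_pos
  have hEx := E_ne x
  have hEy := E_ne y
  obtain ⟨t, ht0, ht⟩ : ∃ t : ℝ, 0 ≤ t ∧ t ^ 2 + 2 * t * p * Real.cos y + p ^ 2 = 1 := by
    have hcy : 0 ≤ Real.cos y := cos_nonneg' (by linarith) (by linarith)
    have hd : 0 ≤ p ^ 2 * Real.cos y ^ 2 + (1 - p ^ 2) := by nlinarith
    refine ⟨-(p * Real.cos y) + √(p ^ 2 * Real.cos y ^ 2 + (1 - p ^ 2)), ?_, ?_⟩
    · have : p * Real.cos y ≤ √(p ^ 2 * Real.cos y ^ 2 + (1 - p ^ 2)) := by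
        apply Real.le_sqrt_of_sq_le
        nlinarith
      linarith
    · have := Real.sq_sqrt hd
      nlinarith
  have c1 : Real.cos (2 * x) ≤ 0 := cos_nonpos' (by linarith) (by linarith)
  have c2 : Real.cos (2 * x + y) ≤ 0 := cos_nonpos' (by linarith) (by linarith)
  have c3 : Real.cos (2 * x - y) ≤ 0 := cos_nonpos' (by linarith) (by linarith)
  have c4 : Real.cos (2 * x + 2 * y) ≤ 0 := cos_nonpos' (by linarith) (by linarith)
  have c5 : Real.cos (2 * x + 3 * y) ≤ 0 := cos_nonpos' (by linarith) (by linarith)
  -- a point `p + t E s` with `s = ± y` is of type `A`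
  have key : ∀ s : ℝ, Real.cos s = Real.cos y → Real.cos (2 * x - s) ≤ 0 →
      Real.cos (2 * x + 2 * y - s) ≤ 0 → (p : ℂ) + t * E s ∈ A := by
    intro s hs1 hs2 hs3
    have hn : ‖(p : ℂ) + t * E s‖ = 1 := by
      have h2 : ‖(p : ℂ) + t * E s‖ ^ 2 = 1 := by
        rw [← Complex.normSq_eq_norm_sq, Complex.normSq_apply]
        simp only [Complex.add_re, Complex.add_im, Complex.ofReal_re, Complex.ofReal_im,
          Complex.re_ofReal_mul, Complex.im_ofReal_mul, E_re, E_im]
        rw [hs1]
        have := Real.sin_sq_add_cos_sq s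
        rw [hs1] at this
        linear_combination ht + t ^ 2 * this
      have h3 := norm_nonneg ((p : ℂ) + t * E s)
      nlinarith
    have hre : ∀ a : ℝ, (conj ((p : ℂ) + t * E s) * -E a).re =
        -(p * Real.cos a + t * Real.cos (a - s)) := by
      intro a
      have : conj ((p : ℂ) + t * E s) * -E a =
          -((p : ℂ) * E a + t * (conj (E s) * E a)) := by
        simp only [map_add, map_mul, Complex.conj_ofReal]; ring
      rw [this, Complex.neg_re, Complex.add_re, Complex.re_ofReal_mul, Complex.re_ofReal_mul,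
        re_EE, E_re]
    apply hC.isA hn.le
    · apply hR.nB
      have := out _ (-E (2 * x)) p hn hp (by rw [hre]; nlinarith) (neg_ne_zero.2 (E_ne _))
      convert this using 2
      ring
    · apply hR.nC
      have := out _ (-E (2 * x + 2 * y)) p hn hp (by rw [hre]; nlinarith) (neg_ne_zero.2 (E_ne _))
      convert this using 2
      rw [E_add]; ring
  have k1 := key (-y) (Real.cos_neg y) (by rw [sub_neg_eq_add]; exact c2)
    (by rw [show 2 * x + 2 * y - -y = 2 * x + 3 * y by ring]; exact c5)
  have k2 := key y rfl c3 (by rw [show 2 * x + 2 * y - y = 2 * x + y by ring]; exact c2)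
  have l1 := hC.hAB _ k1
  have l2 := hC.rho _ (hC.hAB _ k2)
  have e : E (2 * y) * hri p (E (2 * x)) (p + t * E y) = hri p (E (2 * x)) (p + t * E (-y)) := by
    simp only [hr, hri, E_add, E_sub, E_neg, E_two, E_four, E_six, E_zero, E_pi, E_half_pi,
      map_mul, map_sub, map_add, map_pow, map_div₀, map_inv₀, map_neg, map_one,
      Complex.conj_ofReal, Complex.conj_I, E_conj, Complex.ofReal_one, Complex.ofReal_neg]
    field_simp
    ring
  rw [e] at l2
  exact hC.BC _ l1 l2

theorem false (H : RevA p x y z A B C) : False := by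
  have hs := H.sum
  have hpi := Real.pi_pos
  rcases lt_trichotomy x y with hxy | hxy | hxy
  · rcases lt_trichotomy y z with hyz | hyz | hyz
    · exact H.caseIII hxy hyz
    · subst hyz
      have H' := H.mirror
      rcases lt_trichotomy y (Real.pi / 3) with h | h | h
      · exact H'.eq_small h
      · refine H.rev.cube ?_
        rw [← E_two_pi, h]
        rw [show 2 * Real.pi = 2 * (Real.pi / 3) + 2 * (Real.pi / 3) + 2 * (Real.pi / 3) by ring,
          E_add, E_add]
        ring
      · exact H'.eq_large h
    · exact H.caseI hxy hyz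
  · subst hxy
    rcases lt_trichotomy x (Real.pi / 3) with h | h | h
    · exact H.eq_small h
    · refine H.rev.cube ?_
      rw [← E_two_pi, h]
      rw [show 2 * Real.pi = 2 * (Real.pi / 3) + 2 * (Real.pi / 3) + 2 * (Real.pi / 3) by ring,
        E_add, E_add]
      ring
    · exact H.eq_large h
  · rcases lt_trichotomy y z with hyz | hyz | hyz
    · rcases le_total y (Real.pi / 4) with h | h
      · rcases le_total y (Real.pi / 6) with h' | h'
        · exact H.small2 h'
        · exact H.small1 h' h
      · exact H.caseIV hxy hyz h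
    · subst hyz
      have H' := H.mirror
      rcases lt_trichotomy y (Real.pi / 3) with h | h | h
      · exact H'.eq_small h
      · refine H.rev.cube ?_
        rw [← E_two_pi, h]
        rw [show 2 * Real.pi = 2 * (Real.pi / 3) + 2 * (Real.pi / 3) + 2 * (Real.pi / 3) by ring,
          E_add, E_add]
        ring
      · exact H'.eq_large h
    · exact H.caseII hxy hyz

end RevA

namespace Rev

variable {p : ℝ} {b q : ℂ} {A B C : Set ℂ}

/-- the point `v` of the unit circle is not of type `A` -/
lemma cA (H : Rev p b q A B C) {v : ℂ} (hv : ‖v‖ = 1) (h : v.re ≤ 0) : v ∉ A := by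
  apply H.nA
  have := out v (-1) p hv H.hp (by simpa using h) (by simp)
  convert this using 2
  ring

lemma cB (H : Rev p b q A B C) {v : ℂ} (hv : ‖v‖ = 1) (h : (conj v * b).re ≤ 0) : v ∉ B := by
  apply H.nB
  have := out v (-b) p hv H.hp (by rw [mul_neg, Complex.neg_re]; linarith)
    (neg_ne_zero.2 (by rintro rfl; simpa using H.hb))
  convert this using 2
  ring

lemma cC (H : Rev p b q A B C) {v : ℂ} (hv : ‖v‖ = 1) (h : (conj v * (b * q)).re ≤ 0) :
    v ∉ C := by
  apply H.nC
  have hb0 : b ≠ 0 := by rintro rfl; simpa using H.hb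
  have := out v (-(b * q)) p hv H.hp (by rw [mul_neg, Complex.neg_re]; linarith)
    (neg_ne_zero.2 (mul_ne_zero hb0 H.cfg.q0))
  convert this using 2
  ring

lemma false_of_pos (H : Rev p b q A B C) (hb : 0 < b.im) : False := by
  have hpi := Real.pi_pos
  have hbb := conj_mul_self_of_norm H.hb
  have h1 : 0 < q.im := by
    by_contra hq
    push Not at hq
    have hn : ‖b * I‖ = 1 := by rw [norm_mul, H.hb]; simp
    rcases H.cfg.cov (b * I) hn.le with h | h | h
    · exact H.cA hn (by simpa using hb.le) h
    · refine H.cB hn ?_ h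
      rw [show conj (b * I) * b = -I * (conj b * b) by simp; ring, hbb]; simp
    · refine H.cC hn ?_ h
      rw [show conj (b * I) * (b * q) = -I * q * (conj b * b) by simp; ring, hbb]
      simpa using hq
  have h2 : (b * q).im < 0 := by
    by_contra hq
    push Not at hq
    have hn : ‖-I‖ = 1 := by simp
    rcases H.cfg.cov (-I) hn.le with h | h | h
    · exact H.cA hn (by simp) h
    · refine H.cB hn ?_ h
      simpa using hb.le
    · refine H.cC hn ?_ h
      have : (conj (-I) * (b * q)).re = -(b * q).im := by
        simp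
      rw [this]; linarith
  have hbE : E (2 * (Complex.arg b / 2)) = b := by
    have := Complex.norm_mul_exp_arg_mul_I b
    rw [H.hb] at this
    rw [E, mul_div_cancel₀ _ (two_ne_zero)]
    simpa using this
  have hqE : E (2 * (Complex.arg q / 2)) = q := by
    have := Complex.norm_mul_exp_arg_mul_I q
    rw [H.cfg.q1] at this
    rw [E, mul_div_cancel₀ _ (two_ne_zero)]
    simpa using this
  have harg : ∀ w : ℂ, 0 < w.im → 0 < Complex.arg w ∧ Complex.arg w < Real.pi := by
    intro w hw
    constructor
    · have h1 := Complex.arg_nonneg_iff.2 hw.le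
      rcases h1.lt_or_eq with h | h
      · exact h
      · have := Complex.arg_eq_zero_iff.1 h.symm
        linarith [this.2]
    · have h1 := Complex.arg_le_pi w
      rcases h1.lt_or_eq with h | h
      · exact h
      · have := Complex.arg_eq_pi_iff.1 h
        linarith [this.2]
  obtain ⟨b1, b2⟩ := harg b hb
  obtain ⟨q1, q2⟩ := harg q h1
  have h3 : Real.pi < Complex.arg b + Complex.arg q := by
    by_contra hle
    push Not at hle
    have : (b * q).im = Real.sin (Complex.arg b + Complex.arg q) := by
      rw [← hbE, ← hqE, ← E_add, E_im, hbE, hqE]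
      ring_nf
    have h4 := Real.sin_nonneg_of_nonneg_of_le_pi (by linarith) hle
    linarith
  have HA : RevA p (Complex.arg b / 2) (Complex.arg q / 2)
      (Real.pi - Complex.arg b / 2 - Complex.arg q / 2) A B C :=
    ⟨by rw [hbE, hqE]; exact H, by linarith, by linarith, by linarith, by linarith, by linarith,
      by linarith, by linarith⟩
  exact HA.false

/-- **The orientation reversing case is impossible.** -/
theorem false (H : Rev p b q A B C) : False := by
  rcases lt_trichotomy b.im 0 with h | h | h
  · exact H.cj.false_of_pos (by simpa using h)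
  · have k1 : 0 < (b * q).im := by
      by_contra hq
      push Not at hq
      have hn : ‖I‖ = 1 := by simp
      rcases H.cfg.cov I hn.le with h' | h' | h'
      · exact H.cA hn (by simp) h'
      · refine H.cB hn ?_ h'
        simp [h]
      · refine H.cC hn ?_ h'
        have : (conj I * (b * q)).re = (b * q).im := by simp
        rw [this]; exact hq
    have k2 : (b * q).im < 0 := by
      by_contra hq
      push Not at hq
      have hn : ‖-I‖ = 1 := by simp
      rcases H.cfg.cov (-I) hn.le with h' | h' | h'
      · exact H.cA hn (by simp) h'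
      · refine H.cB hn ?_ h'
        simp [h]
      · refine H.cC hn ?_ h'
        have : (conj (-I) * (b * q)).re = -(b * q).im := by simp
        rw [this]; linarith
    linarith
  · exact H.false_of_pos h

end Rev

end Pool.Agent.H59.Disc
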